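import Pool.Agent.Work.MP_7d1d14_co.Defs

namespace Pool.Agent.Work.MP_7d1d14_co

universe u

variable {V : Type u} {G : SimpleGraph V} {s : V → ℤ} {f : ℤ → V} {N : ℤ}

theorem Pth.append {a b c d : V} {l m : List V} (h1 : Pth G a l b) (h2 : Pth G c m d)
    (h : G.Adj b c) : Pth G a (l ++ m) d := by
  obtain ⟨h11, h12, h13⟩ := h1
  obtain ⟨h21, h22, h23⟩ := h2
  refine ⟨?_, ?_, ?_⟩
  · rw [List.head?_append, h11]; rfl
  · rw [List.getLast?_append, h22]; rfl
  · refine h13.append h23 ?_
    intro x hx y hy
    rw [h12] at hx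
    rw [h21] at hy
    simp only [Option.mem_def, Option.some.injEq] at hx hy
    subst hx hy
    exact h

theorem Pth.single (a : V) : Pth G a [a] a := ⟨rfl, rfl, List.isChain_singleton a⟩

theorem Pth.cons {a b c : V} {l : List V} (h : Pth G b l c) (hab : G.Adj a b) :
    Pth G a (a :: l) c := (Pth.single a).append h hab

theorem Pth.concat {a b c : V} {l : List V} (h : Pth G a l b) (hbc : G.Adj b c) :
    Pth G a (l ++ [c]) c := h.append (Pth.single c) hbc

theorem Pth.reverse {a b : V} {l : List V} (h : Pth G a l b) : Pth G b l.reverse a := by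
  obtain ⟨h1, h2, h3⟩ := h
  refine ⟨?_, ?_, ?_⟩
  · rw [List.head?_reverse, h2]
  · rw [List.getLast?_reverse, h1]
  · rw [List.isChain_reverse]
    exact h3.imp fun _ _ h => h.symm

theorem Pth.ne_nil {a b : V} {l : List V} (h : Pth G a l b) : l ≠ [] := by
  rintro rfl
  simpa using h.1

theorem Pth.length_pos {a b : V} {l : List V} (h : Pth G a l b) : 1 ≤ l.length :=
  List.length_pos_of_ne_nil h.ne_nil

theorem Pth.head_mem {a b : V} {l : List V} (h : Pth G a l b) : a ∈ l :=
  List.mem_of_mem_head? h.1

theorem Pth.last_mem {a b : V} {l : List V} (h : Pth G a l b) : b ∈ l :=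
  List.mem_of_getLast? h.2.1

theorem Pth.eq_cons {a b : V} {l : List V} (h : Pth G a l b) : ∃ R, l = a :: R := by
  obtain ⟨h1, -, -⟩ := h
  cases l with
  | nil => simp at h1
  | cons x R =>
    simp only [List.head?_cons, Option.some.injEq] at h1
    exact ⟨R, by rw [h1]⟩

/-- sum of signs over a chain -/
theorem Pth.sum {a b : V} {l : List V} (h : Pth G a l b)
    (hs : ∀ u v, G.Adj u v → s v = - s u) :
    (l.map s).sum = (if s a = s b then s a else 0) ∨ s a = 0 := by
  induction l generalizing a with
  | nil => exact absurd rfl h.ne_nil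
  | cons x R ih =>
    obtain ⟨h1, h2, h3⟩ := h
    simp only [List.head?_cons, Option.some.injEq] at h1
    subst h1
    by_cases hx0 : s x = 0
    · exact Or.inr hx0
    left
    cases R with
    | nil =>
      simp only [List.getLast?_singleton, Option.some.injEq] at h2
      subst h2
      simp
    | cons y R' =>
      rw [List.isChain_cons_cons] at h3
      have hy : Pth G y (y :: R') b := ⟨rfl, by rwa [List.getLast?_cons_cons] at h2, h3.2⟩
      have hsy := hs x y h3.1
      rcases ih hy with h4 | h4
      · rw [List.map_cons, List.sum_cons, h4, hsy]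
        by_cases hb : s b = s x
        · rw [if_neg (by omega), if_pos hb.symm]
          ring
        · by_cases hb2 : s b = - s x
          · rw [if_pos hb2.symm, if_neg (by omega)]
            ring
          · exfalso
            -- every element of a chain has sign `± s x`
            have key : ∀ (l : List V) (a : V), Pth G a l b → s b = s a ∨ s b = - s a := by
              intro l
              induction l with
              | nil => intro a h; exact absurd rfl h.ne_nil
              | cons z S ihs =>
                rintro a ⟨g1, g2, g3⟩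
                simp only [List.head?_cons, Option.some.injEq] at g1
                subst g1
                cases S with
                | nil =>
                  simp only [List.getLast?_singleton, Option.some.injEq] at g2
                  subst g2
                  exact Or.inl rfl
                | cons w S' =>
                  rw [List.isChain_cons_cons] at g3
                  have h5 := ihs w ⟨rfl, by rwa [List.getLast?_cons_cons] at g2, g3.2⟩
                  have h6 := hs z w g3.1
                  omega
            have h7 := key _ _ hy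
            omega
      · exfalso
        omega

theorem arc_nil (a b : ℤ) (h : b < a) : arc f a b = [] := by
  unfold arc
  have : (b + 1 - a).toNat = 0 := by omega
  rw [this]
  rfl

theorem arc_cons (a b : ℤ) (h : a ≤ b) : arc f a b = f a :: arc f (a + 1) b := by
  unfold arc
  obtain ⟨n, hn⟩ : ∃ n : ℕ, (b + 1 - a).toNat = n + 1 := ⟨(b - a).toNat, by omega⟩
  have h2 : (b + 1 - (a + 1)).toNat = n := by omega
  rw [hn, h2, List.range_succ_eq_map, List.map_cons, List.map_map]
  congr 1
  · simp
  · apply List.map_congr_left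
    intro i _
    simp only [Function.comp_apply]
    congr 1
    push_cast
    ring

theorem arc_self (a : ℤ) : arc f a a = [f a] := by
  rw [arc_cons a a le_rfl, arc_nil _ _ (by omega)]

theorem mem_arc {a b : ℤ} {v : V} : v ∈ arc f a b ↔ ∃ k, a ≤ k ∧ k ≤ b ∧ f k = v := by
  unfold arc
  rw [List.mem_map]
  constructor
  · rintro ⟨i, hi, rfl⟩
    rw [List.mem_range] at hi
    exact ⟨a + i, by omega, by omega, rfl⟩
  · rintro ⟨k, h1, h2, rfl⟩
    refine ⟨(k - a).toNat, ?_, ?_⟩
    · rw [List.mem_range]
      omega
    · congr 1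
      omega

theorem arc_split (a c b : ℤ) (h1 : a ≤ c) (h2 : c ≤ b + 1) :
    arc f a b = arc f a (c - 1) ++ arc f c b := by
  obtain ⟨n, hn⟩ : ∃ n : ℕ, c = a + n := ⟨(c - a).toNat, by omega⟩
  subst hn
  clear h1
  induction n generalizing a with
  | zero =>
    have : a + ((0 : ℕ) : ℤ) = a := by simp
    rw [this, arc_nil a (a - 1) (by omega), List.nil_append]
  | succ n ih =>
    have h3 := ih (a + 1) (by push_cast at h2; omega)
    rw [arc_cons a b (by push_cast at h2; omega), h3, arc_cons a _ (by push_cast; omega)]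
    have h4 : a + 1 + (n : ℤ) = a + ((n + 1 : ℕ) : ℤ) := by push_cast; ring
    rw [h4, List.cons_append]

theorem arc_pth (hadj : ∀ k, G.Adj (f k) (f (k + 1))) (a b : ℤ) (h : a ≤ b) :
    Pth G (f a) (arc f a b) (f b) := by
  obtain ⟨n, hn⟩ : ∃ n : ℕ, b = a + n := ⟨(b - a).toNat, by omega⟩
  subst hn
  clear h
  induction n generalizing a with
  | zero =>
    have : a + ((0 : ℕ) : ℤ) = a := by simp
    rw [this, arc_self]
    exact Pth.single _
  | succ n ih =>
    rw [arc_cons a _ (by push_cast; omega)]
    have h4 : a + ((n + 1 : ℕ) : ℤ) = a + 1 + (n : ℤ) := by push_cast; ring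
    rw [h4]
    exact (ih (a + 1)).cons (hadj a)

theorem arc_nodup (hinj : ∀ a b, f a = f b → ∃ t : ℤ, a = b + t * N) (hN : 0 < N) (a b : ℤ)
    (h : b < a + N) : (arc f a b).Nodup := by
  unfold arc
  apply List.Nodup.map_on _ List.nodup_range
  intro x hx y hy hxy
  rw [List.mem_range] at hx hy
  obtain ⟨t, ht⟩ := hinj _ _ hxy
  have h1 : (x : ℤ) = y + t * N := by omega
  have h2 : t = 0 := by
    by_contra h0
    rcases lt_or_gt_of_ne h0 with h3 | h3
    · have : t * N ≤ -1 * N := by nlinarith
      omega
    · have : 1 * N ≤ t * N := by nlinarith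
      omega
  subst h2
  omega

theorem Pth.sum_ne {a b : V} {l : List V} (h : Pth G a l b) (hy : Hyp G s) (hab : s a = s b) :
    (l.map s).sum ≠ 0 := by
  have ha := hy.s_val a
  rcases h.sum hy.s_adj with h1 | h1
  · rw [h1, if_pos hab]
    omega
  · omega

theorem Hyp.ne (hy : Hyp G s) {u v : V} (h : G.Adj u v) : s u ≠ s v := by
  have h1 := hy.s_adj u v h
  have h2 := hy.s_val u
  omega

theorem Hyp.eq_of_ne (hy : Hyp G s) {u v : V} (h : s u ≠ s v) : s v = - s u := by
  have h1 := hy.s_val u
  have h2 := hy.s_val v
  omega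

theorem Rch.refl (S : Set V) (u : V) : Rch G S u u := SimpleGraph.Reachable.refl u

theorem Rch.symm {S : Set V} {u v : V} (h : Rch G S u v) : Rch G S v u :=
  SimpleGraph.Reachable.symm h

theorem Rch.trans {S : Set V} {u v w : V} (h : Rch G S u v) (h' : Rch G S v w) : Rch G S u w :=
  SimpleGraph.Reachable.trans h h'

theorem Rch.step {S : Set V} {u v w : V} (h : Rch G S u v) (h1 : G.Adj v w) (hv : v ∉ S)
    (hw : w ∉ S) : Rch G S u w :=
  SimpleGraph.Reachable.trans h (SimpleGraph.Adj.reachable (G := HG G S) ⟨h1, hv, hw⟩)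

theorem Rch.induction {S : Set V} {u : V} {P : V → Prop} (h0 : P u)
    (hstep : ∀ v w, Rch G S u v → P v → G.Adj v w → v ∉ S → w ∉ S → P w) {v : V}
    (h : Rch G S u v) : P v := by
  have h2 := (SimpleGraph.reachable_iff_reflTransGen u v).1 h
  induction h2 with
  | refl => exact h0
  | tail h3 h4 ih =>
    have h5 : Rch G S u _ := (SimpleGraph.reachable_iff_reflTransGen u _).2 h3
    exact hstep _ _ h5 (ih h5) h4.1 h4.2.1 h4.2.2

theorem Rch.not_mem {S : Set V} {u v : V} (hu : u ∉ S) (h : Rch G S u v) : v ∉ S :=
  Rch.induction (P := fun v => v ∉ S) hu (fun _ _ _ _ _ _ hw => hw) h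

/-- a path list for reachability -/
theorem Rch.exists_pth {S : Set V} {u v : V} (h : Rch G S u v) :
    ∃ l : List V, Pth G u l v ∧ l.Nodup ∧ ∀ w ∈ l, Rch G S u w := by
  classical
  obtain ⟨p, hp⟩ := h.exists_isPath
  refine ⟨p.support, ⟨?_, ?_, ?_⟩, hp.support_nodup, ?_⟩
  · rw [List.head?_eq_some_head p.support_ne_nil, SimpleGraph.Walk.head_support]
  · rw [List.getLast?_eq_some_getLast p.support_ne_nil, SimpleGraph.Walk.getLast_support]
  · exact p.isChain_adj_support.imp fun _ _ h => h.1
  · intro w hw
    exact ⟨p.takeUntil w hw⟩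

end Pool.Agent.Work.MP_7d1d14_co
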