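import Pool.Agent.Work.MP_7d1d14_co.Core

/-!
Positions on the cycle `f`, gaps between attachments of `p q`, outside connections.
-/

namespace Pool.Agent.Work.MP_7d1d14_co

universe u

variable {V : Type u} {G : SimpleGraph V} {s : V → ℤ} {f : ℤ → V} {N : ℤ} {p q : V}

theorem Cfg.swap (c : Cfg G f N p q) : Cfg G f N q p :=
  ⟨c.N4, c.adj, c.feq, c.pq.symm, c.qf, c.pf, c.nq, c.np⟩

theorem Cfg.rev (c : Cfg G f N p q) : Cfg G (fun k => f (-k)) N p q := by
  refine ⟨c.N4, ?_, ?_, c.pq, fun k => c.pf _, fun k => c.qf _, ?_, ?_⟩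
  · intro k
    have h := (c.adj (-(k + 1))).symm
    have h2 : -(k + 1) + 1 = -k := by ring
    rw [h2] at h
    exact h
  · intro a b
    rw [c.feq]
    constructor
    · rintro ⟨t, ht⟩
      exact ⟨-t, by linarith⟩
    · rintro ⟨t, ht⟩
      exact ⟨-t, by linarith⟩
  · intro v hv
    rcases c.np v hv with h | ⟨k, hk⟩
    · exact Or.inl h
    · exact Or.inr ⟨-k, by simpa using hk⟩
  · intro v hv
    rcases c.nq v hv with h | ⟨k, hk⟩
    · exact Or.inl h
    · exact Or.inr ⟨-k, by simpa using hk⟩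

theorem Cfg.per (c : Cfg G f N p q) (k : ℤ) : f (k + N) = f k :=
  (c.feq _ _).2 ⟨1, by ring⟩

theorem Cfg.inj (c : Cfg G f N p q) {a b : ℤ} (h : f a = f b) (h1 : a < b + N) (h2 : b < a + N) :
    a = b := by
  obtain ⟨t, ht⟩ := (c.feq a b).1 h
  have hN := c.N4
  have h3 : t = 0 := by
    by_contra h0
    rcases lt_or_gt_of_ne h0 with h4 | h4
    · have : t * N ≤ -1 * N := by nlinarith
      omega
    · have : 1 * N ≤ t * N := by nlinarith
      omega
  rw [h3] at ht
  omega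

/-- every value is attained in a given window -/
theorem Cfg.window (c : Cfg G f N p q) (k a : ℤ) : ∃ j, a ≤ j ∧ j < a + N ∧ f j = f k := by
  have hN : 0 < N := by have := c.N4; omega
  refine ⟨a + (k - a) % N, ?_, ?_, ?_⟩
  · have := Int.emod_nonneg (k - a) hN.ne'
    omega
  · have := Int.emod_lt_of_pos (k - a) hN
    omega
  · rw [c.feq]
    refine ⟨-((k - a) / N), ?_⟩
    have := Int.emod_add_mul_ediv (k - a) N
    linarith

theorem Cfg.window' (c : Cfg G f N p q) (k a : ℤ) : ∃ j, a < j ∧ j ≤ a + N ∧ f j = f k := by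
  obtain ⟨j, h1, h2, h3⟩ := c.window k (a + 1)
  exact ⟨j, by omega, by omega, h3⟩

theorem Cfg.arcn (c : Cfg G f N p q) (a b : ℤ) (h : b < a + N) : (arc f a b).Nodup :=
  arc_nodup (N := N) (fun a b h => (c.feq a b).1 h) (by have := c.N4; omega) a b h

/-- position `k` is an attachment -/
def TT (G : SimpleGraph V) (f : ℤ → V) (p q : V) (k : ℤ) : Prop := G.Adj p (f k) ∨ G.Adj q (f k)

/-- consecutive attachments -/
def Gap (G : SimpleGraph V) (f : ℤ → V) (p q : V) (e g : ℤ) : Prop :=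
  e < g ∧ TT G f p q e ∧ TT G f p q g ∧ ∀ k, e < k → k < g → ¬ TT G f p q k

theorem TT.swap {k : ℤ} (h : TT G f p q k) : TT G f q p k := Or.symm h

theorem Gap.swap {e g : ℤ} (h : Gap G f p q e g) : Gap G f q p e g :=
  ⟨h.1, h.2.1.swap, h.2.2.1.swap, fun k h1 h2 h3 => h.2.2.2 k h1 h2 h3.swap⟩

theorem Gap.rev {e g : ℤ} (h : Gap G f p q e g) : Gap G (fun k => f (-k)) p q (-g) (-e) := by
  refine ⟨by have := h.1; omega, ?_, ?_, ?_⟩
  · have := h.2.2.1
    simpa [TT] using this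
  · have := h.2.1
    simpa [TT] using this
  · intro k h1 h2 h3
    exact h.2.2.2 (-k) (by omega) (by omega) h3

theorem Gap.shift (c : Cfg G f N p q) {e g : ℤ} (h : Gap G f p q e g) :
    Gap G f p q (e + N) (g + N) := by
  refine ⟨by have := h.1; omega, ?_, ?_, ?_⟩
  · have := h.2.1
    rwa [TT, c.per]
  · have := h.2.2.1
    rwa [TT, c.per]
  · intro k h1 h2 h3
    refine h.2.2.2 (k - N) (by omega) (by omega) ?_
    rw [TT, ← c.per (k - N)]
    have : k - N + N = k := by ring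
    rwa [this]

/-- attachments in a window, avoiding given ones -/
theorem exists_Tp (hy : Hyp G s) (c : Cfg G f N p q) (a : ℤ) (x y : V) :
    ∃ k, a ≤ k ∧ k < a + N ∧ G.Adj p (f k) ∧ f k ≠ x ∧ f k ≠ y := by
  classical
  obtain ⟨w, hw, hw2⟩ := hy.deg p {q, x, y} (Finset.card_le_three)
  simp only [Finset.mem_insert, Finset.mem_singleton, not_or] at hw2
  rcases c.np w hw with h | ⟨k, hk⟩
  · exact absurd h hw2.1
  · obtain ⟨j, h1, h2, h3⟩ := c.window k a
    rw [hk] at h3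
    exact ⟨j, h1, h2, by rw [h3]; exact hw, by rw [h3]; exact hw2.2.1, by rw [h3]; exact hw2.2.2⟩

theorem exists_next (hy : Hyp G s) (c : Cfg G f N p q) (k : ℤ) :
    ∃ g, k < g ∧ g ≤ k + N ∧ TT G f p q g ∧ ∀ l, k < l → l < g → ¬ TT G f p q l := by
  classical
  obtain ⟨j, h1, h2, h3, -, -⟩ := exists_Tp hy c (k + 1) p p
  have hex : ∃ n : ℕ, TT G f p q (k + 1 + n) := ⟨(j - (k + 1)).toNat, by
    have : k + 1 + ((j - (k + 1)).toNat : ℤ) = j := by omega
    rw [this]
    exact Or.inl h3⟩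
  have hle : Nat.find hex ≤ (j - (k + 1)).toNat := Nat.find_min' hex (by
    have : k + 1 + ((j - (k + 1)).toNat : ℤ) = j := by omega
    rw [this]
    exact Or.inl h3)
  refine ⟨k + 1 + Nat.find hex, by omega, by omega, Nat.find_spec hex, ?_⟩
  intro l hl1 hl2 hl3
  refine Nat.find_min hex (m := (l - (k + 1)).toNat) (by omega) ?_
  have : k + 1 + ((l - (k + 1)).toNat : ℤ) = l := by omega
  rw [this]
  exact hl3

theorem exists_prev (hy : Hyp G s) (c : Cfg G f N p q) (k : ℤ) :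
    ∃ e, e < k ∧ k - N ≤ e ∧ TT G f p q e ∧ ∀ l, e < l → l < k → ¬ TT G f p q l := by
  obtain ⟨g, h1, h2, h3, h4⟩ := exists_next hy c.rev (-k)
  refine ⟨-g, by omega, by omega, h3, ?_⟩
  intro l hl1 hl2 hl3
  refine h4 (-l) (by omega) (by omega) ?_
  simpa [TT] using hl3

/-- a gap around any position -/
theorem exists_gap (hy : Hyp G s) (c : Cfg G f N p q) (k : ℤ) (hk : ¬ TT G f p q k) :
    ∃ e g, Gap G f p q e g ∧ e < k ∧ k < g := by
  obtain ⟨e, h1, h2, h3, h4⟩ := exists_prev hy c k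
  obtain ⟨g, h5, h6, h7, h8⟩ := exists_next hy c k
  refine ⟨e, g, ⟨by omega, h3, h7, ?_⟩, h1, h5⟩
  intro l hl1 hl2 hl3
  rcases lt_trichotomy l k with h | h | h
  · exact h4 l hl1 h hl3
  · rw [h] at hl3
    exact hk hl3
  · exact h8 l h hl2 hl3

theorem Gap.lt (hy : Hyp G s) (c : Cfg G f N p q) {e g : ℤ} (h : Gap G f p q e g) :
    g < e + N := by
  obtain ⟨k, h1, h2, h3, h4, -⟩ := exists_Tp hy c (e + 1) (f e) (f e)
  have h5 : k ≠ e + N := by
    rintro rfl
    exact h4 (c.per e)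
  by_contra hg
  exact h.2.2.2 k (by omega) (by omega) (Or.inl h3)

theorem Rch_pq (c : Cfg G f N p q) {w : V} (h : Rch G (Set.range f) p w) : w = p ∨ w = q := by
  refine Rch.induction (P := fun w => w = p ∨ w = q) (Or.inl rfl) ?_ h
  intro v w _ hv hvw _ hw
  rcases hv with rfl | rfl
  · rcases c.np w hvw with h | ⟨k, hk⟩
    · exact Or.inr h
    · exact absurd ⟨k, hk⟩ hw
  · rcases c.nq w hvw with h | ⟨k, hk⟩
    · exact Or.inl h
    · exact absurd ⟨k, hk⟩ hw

theorem Gap.colour [Fintype V] (hy : Hyp G s) (c : Cfg G f N p q) {e g : ℤ}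
    (h : Gap G f p q e g) : s (f e) ≠ s (f g) := by
  have hlt := h.lt hy c
  have heg := h.1
  have hpath : Pth G (f e) (arc f e (g - 1)) (f (g - 1)) := arc_pth c.adj _ _ (by omega)
  rw [arc_cons e (g - 1) (by omega)] at hpath
  have hnd : (f e :: arc f (e + 1) (g - 1) ++ arc f g (e + N - 1)).Nodup := by
    rw [← arc_cons e (g - 1) (by omega), ← arc_split e g (e + N - 1) (by omega) (by omega)]
    exact c.arcn _ _ (by omega)
  have hmem : ∀ v, v ∈ Set.range f ↔ v ∈ f e :: arc f (e + 1) (g - 1) ++ arc f g (e + N - 1) := by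
    intro v
    rw [← arc_cons e (g - 1) (by omega), ← arc_split e g (e + N - 1) (by omega) (by omega),
      mem_arc]
    constructor
    · rintro ⟨k, rfl⟩
      obtain ⟨j, h1, h2, h3⟩ := c.window k e
      exact ⟨j, by omega, by omega, h3⟩
    · rintro ⟨k, -, -, hk⟩
      exact ⟨k, hk⟩
  have hpS : p ∉ Set.range f := by
    rintro ⟨k, hk⟩
    exact c.pf k hk
  have hqS : q ∉ Set.range f := by
    rintro ⟨k, hk⟩
    exact c.qf k hk
  have hatt : ∀ k, TT G f p q k → ∃ w, G.Adj (f k) w ∧ Rch G (Set.range f) p w := by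
    rintro k (hk | hk)
    · exact ⟨p, hk.symm, Rch.refl _ _⟩
    · exact ⟨q, hk.symm, (Rch.refl _ _).step c.pq hpS hqS⟩
  refine BL (u := p) hy hpath (arc_pth c.adj g (e + N - 1) (by omega)) ?_ ?_ hnd
    (fun hp => hpS ((hmem p).2 hp)) hmem (hatt e h.2.1) (hatt g h.2.2.1) ?_
  · have := c.adj (g - 1)
    rwa [show g - 1 + 1 = g by ring] at this
  · have := c.adj (e + N - 1)
    rwa [show e + N - 1 + 1 = e + N by ring, c.per] at this
  · intro v hv w hvw hw
    rw [mem_arc] at hv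
    obtain ⟨k, hk1, hk2, rfl⟩ := hv
    refine h.2.2.2 k (by omega) (by omega) ?_
    rcases Rch_pq c hw with rfl | rfl
    · exact Or.inl hvw.symm
    · exact Or.inr hvw.symm

theorem Cfg.excl (hy : Hyp G s) (c : Cfg G f N p q) {k : ℤ} (h1 : G.Adj p (f k))
    (h2 : G.Adj q (f k)) : False := by
  have h3 := hy.s_adj _ _ h1
  have h4 := hy.s_adj _ _ h2
  have h5 := hy.s_adj _ _ c.pq
  have h6 := hy.s_val p
  omega

/-- the two types of gaps -/
theorem Gap.type [Fintype V] (hy : Hyp G s) (c : Cfg G f N p q) {e g : ℤ}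
    (h : Gap G f p q e g) : (G.Adj p (f e) ∧ G.Adj q (f g)) ∨ (G.Adj q (f e) ∧ G.Adj p (f g)) := by
  have h1 := h.colour hy c
  rcases h.2.1 with h2 | h2 <;> rcases h.2.2.1 with h3 | h3
  · exact absurd (by rw [hy.s_adj _ _ h2, hy.s_adj _ _ h3]) h1
  · exact Or.inl ⟨h2, h3⟩
  · exact Or.inr ⟨h2, h3⟩
  · exact absurd (by rw [hy.s_adj _ _ h2, hy.s_adj _ _ h3]) h1

/-! ### Outside connections -/

/-- the cycle and `p`, `q` -/
def SS (f : ℤ → V) (p q : V) : Set V := {v | (∃ k, f k = v) ∨ v = p ∨ v = q}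

/-- an edge or a path through vertices outside `SS` -/
def QC (G : SimpleGraph V) (f : ℤ → V) (p q : V) (x y : V) : Prop :=
  G.Adj x y ∨ ∃ o o', o ∉ SS f p q ∧ G.Adj x o ∧ Rch G (SS f p q) o o' ∧ G.Adj o' y

theorem SS_swap : SS f p q = SS f q p := by
  ext v
  simp only [SS, Set.mem_ofPred_eq]
  tauto

theorem SS_rev : SS (fun k => f (-k)) p q = SS f p q := by
  ext v
  simp only [SS, Set.mem_ofPred_eq]
  constructor
  · rintro (⟨k, hk⟩ | h)
    · exact Or.inl ⟨-k, hk⟩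
    · exact Or.inr h
  · rintro (⟨k, hk⟩ | h)
    · exact Or.inl ⟨-k, by simpa using hk⟩
    · exact Or.inr h

theorem QC.swap {x y : V} (h : QC G f p q x y) : QC G f q p x y := by
  rw [QC, SS_swap]
  exact h

theorem QC.rev {x y : V} (h : QC G f p q x y) : QC G (fun k => f (-k)) p q x y := by
  rw [QC, SS_rev]
  exact h

theorem QC.symm {x y : V} (h : QC G f p q x y) : QC G f p q y x := by
  rcases h with h | ⟨o, o', h1, h2, h3, h4⟩
  · exact Or.inl h.symm
  · exact Or.inr ⟨o', o, h3.not_mem h1, h4.symm, h3.symm, h2.symm⟩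

theorem QC.list {x y : V} (h : QC G f p q x y) :
    ∃ Q : List V, Q.Nodup ∧ (∀ v ∈ Q, v ∉ SS f p q) ∧
      ∀ a b l m, Pth G a l x → Pth G y m b → Pth G a (l ++ (Q ++ m)) b := by
  rcases h with h | ⟨o, o', h1, h2, h3, h4⟩
  · refine ⟨[], List.nodup_nil, by simp, ?_⟩
    intro a b l m hl hm
    rw [List.nil_append]
    exact hl.append hm h
  · obtain ⟨Q, hQ, hQn, hQr⟩ := h3.exists_pth
    refine ⟨Q, hQn, fun v hv => (hQr v hv).not_mem h1, ?_⟩
    intro a b l m hl hm
    exact hl.append (hQ.append hm h4) h2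

end Pool.Agent.Work.MP_7d1d14_co
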