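import Pool.Agent.Work.MP_7d1d14_co.Basic

/-!
The basic lemma: attachments of a component outside a cycle alternate in colour.
-/

namespace Pool.Agent.Work.MP_7d1d14_co

universe u

variable {V : Type u} [Fintype V] {G : SimpleGraph V} {s : V → ℤ} {f : ℤ → V} {N : ℤ}

/-- replace an open arc `R` between `x` and `y` by a path `P` outside the cycle -/
theorem reroute {x y r t w w' : V} {R L P : List V} (h1 : Pth G x (x :: R) r)
    (h2 : Pth G y L t) (htx : G.Adj t x) (hnd : (x :: R ++ L).Nodup)
    (hP : Pth G w P w') (hPn : P.Nodup) (hPZ : ∀ v ∈ P, v ∉ x :: R ++ L)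
    (hxw : G.Adj x w) (hyw : G.Adj y w') : IsCyc G (x :: P ++ L) := by
  refine ⟨?_, ?_, x, t, ?_, htx⟩
  · rw [List.nodup_append] at hnd ⊢
    obtain ⟨h3, h4, h5⟩ := hnd
    refine ⟨?_, h4, ?_⟩
    · rw [List.nodup_cons]
      refine ⟨fun hx => hPZ x hx (by simp), hPn⟩
    · intro a ha b hb hab
      rw [List.mem_cons] at ha
      rcases ha with rfl | ha
      · exact h5 a (by simp) b hb hab
      · subst hab
        exact hPZ a ha (List.mem_append_right _ hb)
  · have := hP.length_pos
    have := h2.length_pos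
    simp only [List.cons_append, List.length_cons, List.length_append]
    omega
  · exact (hP.cons hxw).append h2 hyw.symm

theorem BL (hy : Hyp G s) {x y r t : V} {R L : List V}
    (h1 : Pth G x (x :: R) r) (h2 : Pth G y L t) (hry : G.Adj r y) (htx : G.Adj t x)
    (hnd : (x :: R ++ L).Nodup) {u : V} (hu : u ∉ x :: R ++ L)
    {S : Set V} (hS : ∀ v, v ∈ S ↔ v ∈ x :: R ++ L)
    (hxK : ∃ w, G.Adj x w ∧ Rch G S u w) (hyK : ∃ w, G.Adj y w ∧ Rch G S u w)
    (hR : ∀ v ∈ R, ∀ w, G.Adj v w → ¬ Rch G S u w) : s x ≠ s y := by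
  classical
  intro hxy
  obtain ⟨w, hxw, hw⟩ := hxK
  obtain ⟨w', hyw, hw'⟩ := hyK
  have huS : u ∉ S := fun h => hu ((hS u).1 h)
  obtain ⟨P, hP, hPn, hPr⟩ := Rch.exists_pth (hw.symm.trans hw')
  have hPK : ∀ v ∈ P, Rch G S u v := fun v hv => hw.trans (hPr v hv)
  have hKS : ∀ v, Rch G S u v → v ∉ x :: R ++ L := fun v hv h =>
    hv.not_mem huS ((hS v).2 h)
  have hcyc' := reroute h1 h2 htx hnd hP hPn (fun v hv => hKS v (hPK v hv)) hxw hyw
  have hcyc : IsCyc G (x :: R ++ L) := by
    refine ⟨hnd, ?_, x, t, h1.append h2 hry, htx⟩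
    have h3 := h2.length_pos
    have h4 : R ≠ [] := by
      rintro rfl
      obtain ⟨-, g, -⟩ := h1
      simp only [List.getLast?_singleton, Option.some.injEq] at g
      subst g
      exact hy.ne hry hxy
    have h5 := List.length_pos_of_ne_nil h4
    simp only [List.cons_append, List.length_cons, List.length_append]
    omega
  set K : Finset V := Finset.univ.filter (fun v => Rch G S u v) with hK
  have hmK : ∀ v, v ∈ K ↔ Rch G S u v := fun v => by simp [hK]
  have hclosed : ∀ a ∈ K, ∀ v, G.Adj a v → v ∈ K ∨ v ∈ x :: R ++ L := by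
    intro a ha v hav
    by_cases hv : v ∈ x :: R ++ L
    · exact Or.inr hv
    · left
      rw [hmK] at ha ⊢
      exact ha.step hav (ha.not_mem huS) (fun h => hv ((hS v).1 h))
  have hsum1 := hy.bal _ hcyc K (fun a ha => hKS a ((hmK a).1 ha)) hclosed
  have hsum2 := hy.bal _ hcyc' (K.filter (fun v => v ∉ P)) (fun a ha => by
      rw [Finset.mem_filter] at ha
      intro h
      rw [List.cons_append, List.mem_cons, List.mem_append] at h
      have h6 := hKS a ((hmK a).1 ha.1)
      rcases h with h | h | h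
      · exact h6 (by simp [h])
      · exact ha.2 h
      · exact h6 (by simp [h])) (fun a ha v hav => by
      rw [Finset.mem_filter] at ha
      rcases hclosed a ha.1 v hav with h | h
      · by_cases hvP : v ∈ P
        · right
          simp [hvP]
        · left
          rw [Finset.mem_filter]
          exact ⟨h, hvP⟩
      · right
        rw [List.cons_append, List.mem_cons, List.mem_append] at h ⊢
        rcases h with h | h | h
        · exact Or.inl h
        · exact absurd ((hmK a).1 ha.1) (hR v h a hav.symm)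
        · exact Or.inr (Or.inr h))
  have hPsum : ∑ v ∈ K.filter (fun v => v ∈ P), s v = (P.map s).sum := by
    rw [← List.sum_toFinset s hPn]
    apply Finset.sum_congr _ (fun _ _ => rfl)
    ext v
    rw [Finset.mem_filter, List.mem_toFinset, hmK]
    exact ⟨fun h => h.2, fun h => ⟨hPK v h, h⟩⟩
  have hsplit := Finset.sum_filter_add_sum_filter_not K (fun v => v ∈ P) s
  rw [hsum1, hsum2, add_zero, hPsum] at hsplit
  refine hP.sum_ne hy ?_ hsplit
  have h7 := hy.s_adj _ _ hxw
  have h8 := hy.s_adj _ _ hyw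
  rw [h7, h8, hxy]

end Pool.Agent.Work.MP_7d1d14_co
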