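import Mathlib

/-!
Definitions for MP_7d1d14_co (regular cycle-conformal braces).
-/

namespace Pool.Agent.Work.MP_7d1d14_co

universe u

/-- A graph is cycle-conformal if it has a perfect matching and, for every even cycle `c`, the
graph minus the vertices of `c` has a perfect matching. -/
def CycleConformal {V : Type u} (G : SimpleGraph V) : Prop :=
  (∃ M : G.Subgraph, M.IsPerfectMatching) ∧
  ∀ (v : V) (c : G.Walk v v), c.IsCycle → Even c.length →
    ∃ M : (G.induce {w | w ∉ c.support}).Subgraph, M.IsPerfectMatching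

/-- A graph is 2-connected if it has at least three vertices, is connected and stays connected
after the deletion of any vertex. -/
def TwoConnected {V : Type u} (G : SimpleGraph V) : Prop :=
  3 ≤ Nat.card V ∧ G.Connected ∧ ∀ v : V, (G.induce {w | w ≠ v}).Connected

/-- A brace is a bipartite 2-connected graph in which every matching with at most two edges is
contained in a perfect matching. -/
def IsBrace {V : Type u} (G : SimpleGraph V) : Prop :=
  G.IsBipartite ∧ TwoConnected G ∧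
  ∀ N : G.Subgraph, N.IsMatching → N.edgeSet.ncard ≤ 2 →
    ∃ M : G.Subgraph, M.IsPerfectMatching ∧ N ≤ M

/-! ### Lists -/

variable {V : Type u} {G : SimpleGraph V}

/-- `l` is a chain from `a` to `b`. -/
def Pth (G : SimpleGraph V) (a : V) (l : List V) (b : V) : Prop :=
  l.head? = some a ∧ l.getLast? = some b ∧ l.IsChain G.Adj

/-- `l` is the list of vertices of a cycle. -/
def IsCyc (G : SimpleGraph V) (l : List V) : Prop :=
  l.Nodup ∧ 3 ≤ l.length ∧ ∃ a b, Pth G a l b ∧ G.Adj b a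

/-- What is used about a bipartite graph with signs `s`. -/
structure Hyp (G : SimpleGraph V) (s : V → ℤ) : Prop where
  s_val : ∀ v, s v = 1 ∨ s v = -1
  s_adj : ∀ u v, G.Adj u v → s v = - s u
  conn : G.Connected
  deg : ∀ (v : V) (F : Finset V), F.card ≤ 3 → ∃ w, G.Adj v w ∧ w ∉ F
  bal : ∀ Z : List V, IsCyc G Z → ∀ K : Finset V, (∀ u ∈ K, u ∉ Z) →
    (∀ u ∈ K, ∀ v, G.Adj u v → v ∈ K ∨ v ∈ Z) → ∑ v ∈ K, s v = 0
  br : ∀ (K : Finset V) (c d x y : V), c ∉ K → d ∉ K → c ≠ d → x ∈ K → y ∉ K → y ≠ c →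
    G.Adj c x → G.Adj d y → (∀ u ∈ K, ∀ v, G.Adj u v → v ∈ K ∨ v = c ∨ v = d) →
    ∑ v ∈ K, s v ≠ 0

/-- the graph minus `S` -/
def HG (G : SimpleGraph V) (S : Set V) : SimpleGraph V where
  Adj a b := G.Adj a b ∧ a ∉ S ∧ b ∉ S
  symm := ⟨fun _ _ h => ⟨h.1.symm, h.2.2, h.2.1⟩⟩
  loopless := ⟨fun _ h => G.loopless.irrefl _ h.1⟩

/-- reachability outside `S` -/
def Rch (G : SimpleGraph V) (S : Set V) (u v : V) : Prop := (HG G S).Reachable u v

/-- the list `f a, ..., f b` -/
def arc (f : ℤ → V) (a b : ℤ) : List V :=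
  (List.range (b + 1 - a).toNat).map (fun i : ℕ => f (a + i))

/-- a cycle `f` with period `N` and an edge `p q` which is a component of the rest -/
structure Cfg (G : SimpleGraph V) (f : ℤ → V) (N : ℤ) (p q : V) : Prop where
  N4 : 4 ≤ N
  adj : ∀ k, G.Adj (f k) (f (k + 1))
  feq : ∀ a b, f a = f b ↔ ∃ t : ℤ, a = b + t * N
  pq : G.Adj p q
  pf : ∀ k, f k ≠ p
  qf : ∀ k, f k ≠ q
  np : ∀ v, G.Adj p v → v = q ∨ ∃ k, f k = v
  nq : ∀ v, G.Adj q v → v = p ∨ ∃ k, f k = v

end Pool.Agent.Work.MP_7d1d14_co
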