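import Pool.Agent.Work.MP_7d1d14_co.Conf

/-!
Step 2: the rules for outside connections.
-/

namespace Pool.Agent.Work.MP_7d1d14_co

universe u

variable {V : Type u} {G : SimpleGraph V} {s : V → ℤ} {f : ℤ → V} {N : ℤ} {p q : V}

theorem mem_SS_f (k : ℤ) : f k ∈ SS f p q := Or.inl ⟨k, rfl⟩

theorem mem_SS_p : p ∈ SS f p q := Or.inr (Or.inl rfl)

theorem mem_SS_q : q ∈ SS f p q := Or.inr (Or.inr rfl)

/-- if `f i` and `f j` are connected outside and the next attachments are both adjacent to `q`
then they are equal -/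
theorem EF (hy : Hyp G s) (c : Cfg G f N p q) {i i' j j' : ℤ} (h1 : i < i') (h2 : i' ≤ j)
    (h3 : j < j') (h4 : j' ≤ i + N) (hi' : G.Adj q (f i')) (hj' : G.Adj q (f j'))
    (hni : ∀ k, i < k → k < i' → ¬ TT G f p q k) (hnj : ∀ k, j < k → k < j' → ¬ TT G f p q k)
    (hQ : QC G f p q (f i) (f j)) : False := by
  obtain ⟨Q, hQn, hQS, hQP⟩ := hQ.list
  have e1 : Pth G (f j') (arc f j' (i + N)) (f i) := by
    have := arc_pth c.adj j' (i + N) h4
    rwa [c.per] at this
  have e2 : Pth G (f j) (arc f i' j).reverse (f i') := (arc_pth c.adj i' j h2).reverse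
  have e3 := hQP _ _ _ _ e1 (e2.concat hi'.symm)
  have hcyc : IsCyc G (arc f j' (i + N) ++ (Q ++ ((arc f i' j).reverse ++ [q]))) := by
    refine ⟨?_, ?_, _, _, e3, hj'⟩
    · simp only [List.nodup_append, List.mem_append, List.mem_reverse, List.nodup_reverse,
        List.mem_singleton, mem_arc]
      refine ⟨c.arcn _ _ (by omega), ⟨hQn, ⟨c.arcn _ _ (by omega), by simp, ?_⟩, ?_⟩, ?_⟩
      · rintro a ⟨k, -, -, rfl⟩ b rfl h
        exact c.qf k h
      · rintro a ha b (⟨k, -, -, rfl⟩ | rfl) rfl
        · exact hQS _ ha (mem_SS_f k)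
        · exact hQS _ ha mem_SS_q
      · rintro a ⟨k, hk1, hk2, rfl⟩ b (hb | ⟨l, hl1, hl2, rfl⟩ | rfl) h
        · rw [← h] at hb
          exact hQS _ hb (mem_SS_f k)
        · have := c.inj h (by omega) (by omega)
          omega
        · exact c.qf k h
    · have := e1.length_pos
      have := e2.length_pos
      simp only [List.length_append, List.length_singleton]
      omega
  have hp : p ∉ arc f j' (i + N) ++ (Q ++ ((arc f i' j).reverse ++ [q])) := by
    simp only [List.mem_append, List.mem_reverse, List.mem_singleton, mem_arc]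
    rintro (⟨k, -, -, h⟩ | h | ⟨k, -, -, h⟩ | h)
    · exact c.pf k h
    · exact hQS _ h mem_SS_p
    · exact c.pf k h
    · exact c.pq.ne h
  have hsum := hy.bal _ hcyc {p} (by simpa using hp) (by
    intro u hu v huv
    rw [Finset.mem_singleton] at hu
    subst hu
    right
    simp only [List.mem_append, List.mem_reverse, List.mem_singleton, mem_arc]
    rcases c.np v huv with h | ⟨k, hk⟩
    · exact Or.inr (Or.inr (Or.inr h))
    · obtain ⟨l, hl1, hl2, hl3⟩ := c.window' k i
      rw [hk] at hl3
      have hT : TT G f u q l := Or.inl (by rw [hl3]; exact huv)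
      have hc1 : ¬ (l < i') := fun h => hni l hl1 h hT
      by_cases hc2 : l ≤ j
      · exact Or.inr (Or.inr (Or.inl ⟨l, by omega, hc2, hl3⟩))
      · have hc3 : ¬ (l < j') := fun h => hnj l (by omega) h hT
        exact Or.inl ⟨l, by omega, hl2, hl3⟩)
  rw [Finset.sum_singleton] at hsum
  have := hy.s_val p
  omega

/-- the same for the previous attachments -/
theorem EB (hy : Hyp G s) (c : Cfg G f N p q) {i i' j j' : ℤ} (h1 : i' < i) (h2 : j ≤ i')
    (h3 : j' < j) (h4 : i - N ≤ j') (hi' : G.Adj q (f i')) (hj' : G.Adj q (f j'))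
    (hni : ∀ k, i' < k → k < i → ¬ TT G f p q k) (hnj : ∀ k, j' < k → k < j → ¬ TT G f p q k)
    (hQ : QC G f p q (f i) (f j)) : False := by
  refine EF hy c.rev (i := -i) (i' := -i') (j := -j) (j' := -j') (by omega) (by omega) (by omega)
    (by omega) (by simpa using hi') (by simpa using hj') ?_ ?_ ?_
  · intro k hk1 hk2 hk3
    exact hni (-k) (by omega) (by omega) hk3
  · intro k hk1 hk2 hk3
    exact hnj (-k) (by omega) (by omega) hk3
  · have := hQ.rev
    simpa using this

/-- the connections of an arc `(a, b)` with `f a ~ q`, `f b ~ p` (type U) -/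
theorem ER [Fintype V] (hy : Hyp G s) (c : Cfg G f N p q) {a b u k : ℤ}
    (hab : Gap G f p q a b) (ha : G.Adj q (f a)) (hb : G.Adj p (f b)) (hu1 : a < u) (hu2 : u < b)
    (hk1 : b ≤ k) (hk2 : k ≤ a + N) (hQ : QC G f p q (f u) (f k)) :
    k = b ∨ k = a + N ∨ ∃ e g, Gap G f p q e g ∧ e < k ∧ k < g ∧ b ≤ e ∧ g ≤ a + N ∧
      G.Adj p (f e) ∧ G.Adj q (f g) := by
  by_cases hkb : k = b
  · exact Or.inl hkb
  by_cases hka : k = a + N
  · exact Or.inr (Or.inl hka)
  right; right
  have hTb := hab.2.2.1
  have hTa : TT G f p q (a + N) := by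
    rw [TT, c.per]
    exact hab.2.1
  by_cases hk : TT G f p q k
  · exfalso
    rcases hk with hk | hk
    · -- the previous attachment of `k` is adjacent to `q`
      obtain ⟨e, he1, he2, he3, he4⟩ := exists_prev hy c k
      have hge : Gap G f p q e k := ⟨he1, he3, Or.inl hk, he4⟩
      rcases hge.type hy c with h | h
      · exact c.excl hy hk h.2
      · have heb : b ≤ e := by
          by_contra hlt
          exact he4 b (by omega) (by omega) hTb
        refine EB hy c (i := k) (i' := e) (j := u) (j' := a) he1 (by omega) hu1 (by omega) h.1 ha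
          he4 (fun l h1 h2 => hab.2.2.2 l h1 (by omega)) hQ.symm
    · -- the next attachment of `k` is adjacent to `p`
      obtain ⟨g, hg1, hg2, hg3, hg4⟩ := exists_next hy c k
      have hkg : Gap G f p q k g := ⟨hg1, Or.inr hk, hg3, hg4⟩
      rcases hkg.type hy c with h | h
      · exact c.excl hy h.1 hk
      · have hga : g < a + N := by
          have h5 : g ≤ a + N := by
            by_contra hlt
            exact hg4 (a + N) (by omega) (by omega) hTa
          rcases lt_or_eq_of_le h5 with h6 | h6
          · exact h6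
          · exfalso
            rw [h6, c.per] at h
            exact c.excl hy h.2 ha
        refine EF hy c.swap (i := u) (i' := b) (j := k) (j' := g) hu2 (by omega) hg1 (by omega) hb
          h.2 (fun l h1 h2 h3 => hab.2.2.2 l (by omega) h2 h3.swap)
          (fun l h1 h2 h3 => hg4 l h1 h2 h3.swap) hQ.swap
  · obtain ⟨e, g, heg, he, hg⟩ := exists_gap hy c k hk
    have heb : b ≤ e := by
      by_contra hlt
      exact heg.2.2.2 b (by omega) (by omega) hTb
    have hga : g ≤ a + N := by
      by_contra hlt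
      exact heg.2.2.2 (a + N) (by omega) (by omega) hTa
    rcases heg.type hy c with h | h
    · exact ⟨e, g, heg, he, hg, heb, hga, h.1, h.2⟩
    · exfalso
      refine EB hy c (i := k) (i' := e) (j := u) (j' := a) he (by omega) hu1 (by omega) h.1 ha
        (fun l h1 h2 => heg.2.2.2 l h1 (by omega)) (fun l h1 h2 => hab.2.2.2 l h1 (by omega)) hQ.symm

end Pool.Agent.Work.MP_7d1d14_co
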