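import Pool.Agent.Work.MP_7d1d14_co.Core

/-!
Step 1: a cycle and a component of the rest which is an edge.
-/

namespace Pool.Agent.Work.MP_7d1d14_co

universe u

variable {V : Type u} {G : SimpleGraph V} {s : V → ℤ} {f : ℤ → V} {N : ℤ}

/-- a cycle as a periodic function -/
structure Cyc4 (G : SimpleGraph V) (f : ℤ → V) (N : ℤ) : Prop where
  N4 : 4 ≤ N
  adj : ∀ k, G.Adj (f k) (f (k + 1))
  feq : ∀ a b, f a = f b ↔ ∃ t : ℤ, a = b + t * N

theorem Cyc4.per (c : Cyc4 G f N) (k : ℤ) : f (k + N) = f k :=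
  (c.feq _ _).2 ⟨1, by ring⟩

theorem Cyc4.inj (c : Cyc4 G f N) {a b : ℤ} (h : f a = f b) (h1 : a < b + N)
    (h2 : b < a + N) : a = b := by
  obtain ⟨t, ht⟩ := (c.feq a b).1 h
  have hN := c.N4
  have h3 : t = 0 := by
    by_contra h0
    rcases lt_or_gt_of_ne h0 with h4 | h4
    · have : t * N ≤ -1 * N := by nlinarith
      omega
    · have : 1 * N ≤ t * N := by nlinarith
      omega
  rw [h3] at ht
  omega

theorem Cyc4.window (c : Cyc4 G f N) (k a : ℤ) : ∃ j, a ≤ j ∧ j < a + N ∧ f j = f k := by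
  have hN : 0 < N := by have := c.N4; omega
  refine ⟨a + (k - a) % N, ?_, ?_, ?_⟩
  · have := Int.emod_nonneg (k - a) hN.ne'
    omega
  · have := Int.emod_lt_of_pos (k - a) hN
    omega
  · rw [c.feq]
    refine ⟨-((k - a) / N), ?_⟩
    have := Int.emod_add_mul_ediv (k - a) N
    linarith

theorem Cyc4.arcn (c : Cyc4 G f N) (a b : ℤ) (h : b < a + N) : (arc f a b).Nodup :=
  arc_nodup (N := N) (fun a b h => (c.feq a b).1 h) (by have := c.N4; omega) a b h

theorem Cyc4.mem_cyc (c : Cyc4 G f N) (a : ℤ) (v : V) :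
    v ∈ arc f a (a + N - 1) ↔ v ∈ Set.range f := by
  rw [mem_arc]
  constructor
  · rintro ⟨k, -, -, hk⟩
    exact ⟨k, hk⟩
  · rintro ⟨k, rfl⟩
    obtain ⟨j, h1, h2, h3⟩ := c.window k a
    exact ⟨j, h1, by omega, h3⟩

theorem Cyc4.isCyc (c : Cyc4 G f N) (a : ℤ) : IsCyc G (arc f a (a + N - 1)) := by
  have hN := c.N4
  refine ⟨c.arcn _ _ (by omega), ?_, _, _, arc_pth c.adj a (a + N - 1) (by omega), ?_⟩
  · unfold arc
    rw [List.length_map, List.length_range]
    omega
  · have := c.adj (a + N - 1)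
    rwa [show a + N - 1 + 1 = a + N by ring, c.per] at this

/-- a cyclic list as a periodic function -/
theorem IsCyc.exists_f (hy : Hyp G s) {l : List V} (h : IsCyc G l) :
    ∃ f N, Cyc4 G f N ∧ ∀ v, v ∈ Set.range f ↔ v ∈ l := by
  obtain ⟨hnd, hlen, a, b, ⟨h1, h2, h3⟩, hab⟩ := h
  have hn : 0 < l.length := by omega
  have hN : (0 : ℤ) < l.length := by omega
  have hlt : ∀ k : ℤ, (k % (l.length : ℤ)).toNat < l.length := by
    intro k
    have h4 := Int.emod_nonneg k hN.ne'
    have h5 := Int.emod_lt_of_pos k hN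
    omega
  set f : ℤ → V := fun k => l[(k % (l.length : ℤ)).toNat]'(hlt k) with hf
  have hadj : ∀ k, G.Adj (f k) (f (k + 1)) := by
    intro k
    have h4 := Int.emod_nonneg k hN.ne'
    have h5 := Int.emod_lt_of_pos k hN
    by_cases h6 : k % (l.length : ℤ) + 1 < l.length
    · have h7 : (k + 1) % (l.length : ℤ) = k % (l.length : ℤ) + 1 := by
        rw [Int.add_emod, Int.emod_eq_of_lt (a := 1) (by norm_num) (by omega)]
        exact Int.emod_eq_of_lt (by omega) h6
      have h8 := List.isChain_iff_getElem.1 h3 (k % (l.length : ℤ)).toNat (by omega)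
      have h9 : ((k + 1) % (l.length : ℤ)).toNat = (k % (l.length : ℤ)).toNat + 1 := by
        rw [h7]
        omega
      simp only [hf, h9]
      exact h8
    · have h6' : k % (l.length : ℤ) = l.length - 1 := by omega
      have h7 : (k + 1) % (l.length : ℤ) = 0 := by
        rw [Int.add_emod, h6', Int.emod_eq_of_lt (a := 1) (by norm_num) (by omega)]
        rw [show (l.length : ℤ) - 1 + 1 = l.length by ring]
        exact Int.emod_self
      have h8 : ((k + 1) % (l.length : ℤ)).toNat = 0 := by rw [h7]; rfl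
      have h9 : (k % (l.length : ℤ)).toNat = l.length - 1 := by rw [h6']; omega
      simp only [hf, h8, h9]
      have e1 : l[l.length - 1]'(by omega) = b := by
        rw [List.getLast?_eq_getElem?] at h2
        rw [List.getElem?_eq_getElem (by omega)] at h2
        simpa using h2
      have e2 : l[0]'(by omega) = a := by
        rw [List.head?_eq_getElem?] at h1
        rw [List.getElem?_eq_getElem (by omega)] at h1
        simpa using h1
      rw [e1, e2]
      exact hab
  have hfeq : ∀ a b, f a = f b ↔ ∃ t : ℤ, a = b + t * (l.length : ℤ) := by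
    intro x y
    have h4 := Int.emod_nonneg x hN.ne'
    have h5 := Int.emod_nonneg y hN.ne'
    constructor
    · intro h6
      have h7 := (hnd.getElem_inj_iff (hi := hlt x) (hj := hlt y)).1 h6
      have h8 : x % (l.length : ℤ) = y % (l.length : ℤ) := by omega
      have h9 := Int.emod_add_mul_ediv x l.length
      have h10 := Int.emod_add_mul_ediv y l.length
      refine ⟨x / l.length - y / l.length, ?_⟩
      rw [h8] at h9
      linarith
    · rintro ⟨t, rfl⟩
      have h6 : (y + t * (l.length : ℤ)) % (l.length : ℤ) = y % (l.length : ℤ) :=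
        Int.add_mul_emod_self_right _ _ _
      simp only [hf, h6]
  have hN4 : (4 : ℤ) ≤ l.length := by
    by_contra hcon
    have h4 : (l.length : ℤ) = 3 := by omega
    have a0 := hy.s_adj _ _ (hadj 0)
    have a1 := hy.s_adj _ _ (hadj 1)
    have a2 := hy.s_adj _ _ (hadj 2)
    norm_num at a0 a1 a2
    have a3 : f 3 = f 0 := (hfeq 3 0).2 ⟨1, by rw [h4]; norm_num⟩
    rw [a3] at a2
    have a4 := hy.s_val (f 0)
    omega
  refine ⟨f, l.length, ⟨hN4, hadj, hfeq⟩, ?_⟩
  intro v
  constructor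
  · rintro ⟨k, rfl⟩
    exact List.getElem_mem _
  · intro hv
    obtain ⟨i, hi, rfl⟩ := List.getElem_of_mem hv
    refine ⟨i, ?_⟩
    have h4 : (((i : ℤ) % (l.length : ℤ))).toNat = i := by
      rw [Int.emod_eq_of_lt (by omega) (by omega)]
      omega
    simp only [hf, h4]

/-- a cycle which misses some vertex -/
theorem exists_cyc [Fintype V] (hy : Hyp G s) : ∃ l u, IsCyc G l ∧ u ∉ l := by
  classical
  -- a longest path
  obtain ⟨n, ⟨a, b, l, hl, hnd, hlen⟩, hmax⟩ : ∃ n, (∃ a b l, Pth G a l b ∧ l.Nodup ∧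
      l.length = n) ∧ ∀ m, (∃ a b l, Pth G a l b ∧ l.Nodup ∧ l.length = m) → m ≤ n := by
    obtain ⟨v⟩ := hy.conn.nonempty
    have h1 : ∃ a b l, Pth G a l b ∧ l.Nodup ∧ l.length = 1 :=
      ⟨v, v, [v], Pth.single v, List.nodup_singleton v, rfl⟩
    have hb : ∀ m, (∃ a b l, Pth G a l b ∧ l.Nodup ∧ l.length = m) → m ≤ Fintype.card V := by
      rintro m ⟨a, b, l, -, h2, rfl⟩
      exact h2.length_le_card
    refine ⟨Nat.findGreatest (fun m => ∃ a b l, Pth G a l b ∧ l.Nodup ∧ l.length = m)
      (Fintype.card V), Nat.findGreatest_spec (P := fun m => ∃ a b l, Pth G a l b ∧ l.Nodup ∧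
      l.length = m) (hb 1 h1) h1, fun m hm => Nat.le_findGreatest (hb m hm) hm⟩
  obtain ⟨R, rfl⟩ := hl.eq_cons
  have hnb : ∀ w, G.Adj a w → w ∈ R := by
    intro w hw
    by_contra hcon
    have h2 : w ∉ a :: R := by
      rw [List.mem_cons, not_or]
      exact ⟨hw.ne', hcon⟩
    have h3 := hmax (n + 1) ⟨w, b, w :: a :: R, hl.cons hw.symm, List.nodup_cons.2 ⟨h2, hnd⟩, by
      rw [List.length_cons, hlen]⟩
    omega
  obtain ⟨w1, hw1, -⟩ := hy.deg a ∅ (by simp)
  obtain ⟨x1, R', hR⟩ : ∃ x R', R = x :: R' := by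
    cases R with
    | nil => exact absurd (hnb w1 hw1) (by simp)
    | cons x R' => exact ⟨x, R', rfl⟩
  obtain ⟨w2, hw2, hw2'⟩ := hy.deg a {x1} (by simp)
  rw [Finset.mem_singleton] at hw2'
  obtain ⟨w3, hw3, hw3'⟩ := hy.deg a {x1, w2} (Finset.card_le_two.trans (by norm_num))
  simp only [Finset.mem_insert, Finset.mem_singleton, not_or] at hw3'
  -- prefix cycles
  have key : ∀ (A B : List V) (w : V), R = A ++ w :: B → G.Adj a w → w ≠ x1 →
      IsCyc G (a :: (A ++ [w])) := by
    intro A B w hRA haw hwx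
    have hA : A ≠ [] := by
      rintro rfl
      rw [hR] at hRA
      simp only [List.nil_append, List.cons.injEq] at hRA
      exact hwx hRA.1.symm
    have hAl := List.length_pos_of_ne_nil hA
    refine ⟨?_, ?_, a, w, ⟨rfl, ?_, ?_⟩, haw.symm⟩
    · rw [hRA] at hnd
      have : a :: (A ++ w :: B) = (a :: (A ++ [w])) ++ B := by simp
      rw [this] at hnd
      exact hnd.of_append_left
    · simp only [List.length_cons, List.length_append, List.length_nil]
      omega
    · rw [List.getLast?_cons]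
      simp
    · have h4 := hl.2.2
      rw [hRA] at h4
      have : a :: (A ++ w :: B) = (a :: (A ++ [w])) ++ B := by simp
      rw [this] at h4
      exact h4.left_of_append
  obtain ⟨A, B, hAB⟩ := List.append_of_mem (hnb w2 hw2)
  have h3 := hnb w3 hw3
  rw [hAB, List.mem_append, List.mem_cons] at h3
  have hnd' := hnd
  rw [hAB] at hnd'
  rcases h3 with h3 | h3 | h3
  · -- `w3` comes first
    obtain ⟨A1, A2, hA⟩ := List.append_of_mem h3
    refine ⟨_, w2, key A1 (A2 ++ w2 :: B) w3 (by rw [hAB, hA]; simp) hw3 hw3'.1, ?_⟩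
    rw [hA] at hnd'
    simp only [List.mem_cons, List.mem_append, List.not_mem_nil, or_false, not_or]
    simp only [List.cons_append, List.append_assoc, List.nodup_cons, List.nodup_append,
      List.mem_append, List.mem_cons] at hnd'
    refine ⟨hw2.ne', fun h => ?_, Ne.symm hw3'.2⟩
    exact hnd'.2.2.2 w2 h w2 (Or.inr (Or.inr (Or.inl rfl))) rfl
  · exact absurd h3 hw3'.2
  · refine ⟨_, w3, key A B w2 hAB hw2 hw2', ?_⟩
    simp only [List.mem_cons, List.mem_append, List.not_mem_nil, or_false, not_or]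
    simp only [List.nodup_cons, List.nodup_append, List.mem_cons] at hnd'
    refine ⟨hw3.ne', fun h => ?_, hw3'.2⟩
    exact hnd'.2.2.2 w3 h w3 (Or.inr h3) rfl

end Pool.Agent.Work.MP_7d1d14_co
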