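import Pool.Agent.Work.MP_7d1d14_co.Pair

/-!
From braces and cycle-conformality to the abstract hypotheses, and the final theorem.
-/

namespace Pool.Agent.Work.MP_7d1d14_co

universe u

variable {V : Type u} {G : SimpleGraph V} {s : V → ℤ}

theorem partner {W : Type*} {H : SimpleGraph W} (M : H.Subgraph) (hM : M.IsPerfectMatching) :
    ∃ g : W → W, (∀ v, M.Adj v (g v)) ∧ ∀ v w, M.Adj v w → w = g v := by
  have h : ∀ v, ∃! w, M.Adj v w := fun v => hM.1 (hM.2 v)
  choose g hg using h
  exact ⟨g, fun v => (hg v).1, fun v w hw => (hg v).2 w hw⟩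

theorem walk_sign (hs : ∀ u v, G.Adj u v → s v = - s u) {u v : V} (p : G.Walk u v) :
    s v = (-1) ^ p.length * s u := by
  induction p with
  | nil => simp
  | cons h p ih =>
    rw [ih, SimpleGraph.Walk.length_cons, hs _ _ h]
    ring

/-- a cyclic list is a cycle -/
theorem IsCyc.walk (hv : ∀ v, s v = 1 ∨ s v = -1) (hs : ∀ u v, G.Adj u v → s v = - s u)
    {Z : List V} (h : IsCyc G Z) : ∃ (v : V) (c : G.Walk v v), c.IsCycle ∧ Even c.length ∧
      ∀ w, w ∈ c.support ↔ w ∈ Z := by
  obtain ⟨hnd, hlen, a, b, hP, hba⟩ := h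
  obtain ⟨h1, h2, h3⟩ := hP
  have hne : Z ≠ [] := by
    rintro rfl
    simp at hlen
  have ha : Z.head hne = a := by
    rw [List.head?_eq_some_head hne] at h1
    simpa using h1
  have hb : Z.getLast hne = b := by
    rw [List.getLast?_eq_some_getLast hne] at h2
    simpa using h2
  set p : G.Walk a b := (SimpleGraph.Walk.ofSupport Z hne h3).copy ha hb with hp
  have hsup : p.support = Z := by
    rw [hp, SimpleGraph.Walk.support_copy, SimpleGraph.Walk.support_ofSupport]
  have hplen : p.length = Z.length - 1 := by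
    rw [hp, SimpleGraph.Walk.length_copy, SimpleGraph.Walk.length_ofSupport]
  have hpath : p.IsPath := by
    rw [SimpleGraph.Walk.isPath_def, hsup]
    exact hnd
  have hcyc : (SimpleGraph.Walk.cons hba p).IsCycle := by
    rw [SimpleGraph.Walk.cons_isCycle_iff]
    refine ⟨hpath, fun hmem => ?_⟩
    rw [Sym2.eq_swap] at hmem
    have := hpath.length_eq_one_of_mem_edges hmem
    omega
  refine ⟨b, SimpleGraph.Walk.cons hba p, hcyc, ?_, ?_⟩
  · by_contra hodd
    rw [Nat.not_even_iff_odd] at hodd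
    have h4 := walk_sign hs (SimpleGraph.Walk.cons hba p)
    rw [hodd.neg_one_pow] at h4
    have := hv b
    omega
  · intro w
    rw [SimpleGraph.Walk.support_cons, List.mem_cons, hsup]
    constructor
    · rintro (rfl | h)
      · exact List.mem_of_getLast? h2
      · exact h
    · exact Or.inr

theorem bal_of_conformal (hc : CycleConformal G) (hv : ∀ v, s v = 1 ∨ s v = -1)
    (hs : ∀ u v, G.Adj u v → s v = - s u) (Z : List V) (hZ : IsCyc G Z) (K : Finset V)
    (hKZ : ∀ u ∈ K, u ∉ Z) (hK : ∀ u ∈ K, ∀ v, G.Adj u v → v ∈ K ∨ v ∈ Z) :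
    ∑ v ∈ K, s v = 0 := by
  classical
  obtain ⟨v0, c, hcyc, heven, hsup⟩ := hZ.walk hv hs
  obtain ⟨M, hM⟩ := hc.2 v0 c hcyc heven
  obtain ⟨g, hg1, hg2⟩ := partner M hM
  have hmem : ∀ u ∈ K, u ∈ {w | w ∉ c.support} := fun u hu h => hKZ u hu ((hsup u).1 h)
  have hgadj : ∀ x, G.Adj x.1 (g x).1 := fun x => (M.adj_sub (hg1 x))
  refine Finset.sum_involution (fun u hu => (g ⟨u, hmem u hu⟩).1) ?_ ?_ ?_ ?_
  · intro u hu
    rw [hs _ _ (hgadj ⟨u, hmem u hu⟩)]
    ring
  · intro u hu _ h
    exact (hgadj ⟨u, hmem u hu⟩).ne' h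
  · intro u hu
    rcases hK u hu _ (hgadj ⟨u, hmem u hu⟩) with h | h
    · exact h
    · exact absurd ((hsup _).2 h) (g ⟨u, hmem u hu⟩).2
  · intro u hu
    have h1 := hg2 _ _ (hg1 ⟨u, hmem u hu⟩).symm
    exact congrArg Subtype.val h1.symm

theorem br_of_brace (hb : IsBrace G) (hs : ∀ u v, G.Adj u v → s v = - s u)
    (hv : ∀ v, s v = 1 ∨ s v = -1) (K : Finset V) (c d x y : V) (hcK : c ∉ K) (hdK : d ∉ K)
    (hcd : c ≠ d) (hxK : x ∈ K) (hyK : y ∉ K) (hyc : y ≠ c) (hcx : G.Adj c x) (hdy : G.Adj d y)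
    (hK : ∀ u ∈ K, ∀ v, G.Adj u v → v ∈ K ∨ v = c ∨ v = d) : ∑ v ∈ K, s v ≠ 0 := by
  classical
  have hxy : x ≠ y := fun h => hyK (h ▸ hxK)
  have hxd : x ≠ d := fun h => hdK (h ▸ hxK)
  have hm : (G.subgraphOfAdj hcx ⊔ G.subgraphOfAdj hdy).IsMatching := by
    refine (SimpleGraph.Subgraph.IsMatching.subgraphOfAdj hcx).sup
      (SimpleGraph.Subgraph.IsMatching.subgraphOfAdj hdy) ?_
    rw [Set.disjoint_left]
    rintro a ha ha'
    have h1 := (G.subgraphOfAdj hcx).support_subset_verts ha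
    have h2 := (G.subgraphOfAdj hdy).support_subset_verts ha'
    rcases h1 with rfl | rfl <;> rcases h2 with h | h
    · exact hcd h
    · exact hyc h.symm
    · exact hxd h
    · exact hxy h
  have hcard : (G.subgraphOfAdj hcx ⊔ G.subgraphOfAdj hdy).edgeSet.ncard ≤ 2 := by
    rw [SimpleGraph.Subgraph.edgeSet_sup, SimpleGraph.edgeSet_subgraphOfAdj,
      SimpleGraph.edgeSet_subgraphOfAdj]
    refine (Set.ncard_union_le _ _).trans ?_
    rw [Set.ncard_singleton, Set.ncard_singleton]
  obtain ⟨M, hM, hNM⟩ := hb.2.2 _ hm hcard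
  obtain ⟨g, hg1, hg2⟩ := partner M hM
  have hMcx : M.Adj c x := hNM.2 (by
    rw [SimpleGraph.Subgraph.sup_adj]
    left
    simp)
  have hMdy : M.Adj d y := hNM.2 (by
    rw [SimpleGraph.Subgraph.sup_adj]
    right
    simp)
  have hgadj : ∀ x, G.Adj x (g x) := fun x => (M.adj_sub (hg1 x))
  have hgg : ∀ v, g (g v) = v := fun v => (hg2 _ _ (hg1 v).symm).symm
  have hgx : g x = c := (hg2 _ _ hMcx.symm).symm
  have hgc : g c = x := (hg2 _ _ hMcx).symm
  have hgd : g d = y := (hg2 _ _ hMdy).symm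
  have h0 : ∑ v ∈ K.erase x, s v = 0 := by
    refine Finset.sum_involution (fun u _ => g u) ?_ ?_ ?_ ?_
    · intro u _
      rw [hs _ _ (hgadj u)]
      ring
    · intro u _ _ h
      exact (hgadj u).ne' h
    · intro u hu
      rw [Finset.mem_erase] at hu ⊢
      have hgu : g u ∈ K := by
        rcases hK u hu.2 _ (hgadj u) with h | h | h
        · exact h
        · exfalso
          have := hgg u
          rw [h, hgc] at this
          exact hu.1 this.symm
        · exfalso
          have := hgg u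
          rw [h, hgd] at this
          exact hyK (this ▸ hu.2)
      refine ⟨fun h => ?_, hgu⟩
      have := hgg u
      rw [h, hgx] at this
      exact hcK (this ▸ hu.2)
    · intro u _
      exact hgg u
  rw [← Finset.add_sum_erase K s hxK, h0, add_zero]
  have := hv x
  omega

/-- signs of a bipartite graph -/
theorem exists_sign (h : G.IsBipartite) : ∃ s : V → ℤ, (∀ v, s v = 1 ∨ s v = -1) ∧
    ∀ u v, G.Adj u v → s v = - s u := by
  obtain ⟨C⟩ := h
  refine ⟨fun v => if C v = 0 then 1 else -1, fun v => ?_, fun u v huv => ?_⟩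
  · by_cases h : C v = 0
    · exact Or.inl (if_pos h)
    · exact Or.inr (if_neg h)
  · have h1 := C.valid huv
    have h2 : ∀ a b : Fin 2, a ≠ b → (if b = 0 then (1 : ℤ) else -1) = -(if a = 0 then 1 else -1) := by
      decide
    exact h2 _ _ h1

theorem hyp_of (hb : IsBrace G) (hc : CycleConformal G) [Finite V]
    (hdeg : ∀ v, 4 ≤ (G.neighborSet v).ncard) (hv : ∀ v, s v = 1 ∨ s v = -1)
    (hs : ∀ u v, G.Adj u v → s v = - s u) : Hyp G s := by
  refine ⟨hv, hs, hb.2.1.2.1, ?_, bal_of_conformal hc hv hs, br_of_brace hb hs hv⟩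
  intro v F hF
  by_contra hno
  push Not at hno
  have h1 : G.neighborSet v ⊆ (F : Set V) := fun w hw => hno w hw
  have h2 := Set.ncard_le_ncard h1 F.finite_toSet
  rw [Set.ncard_coe_finset] at h2
  have := hdeg v
  omega

/-- every cycle-conformal brace with minimum degree at least four is complete bipartite -/
theorem main_iso [Finite V] (hb : IsBrace G) (hc : CycleConformal G)
    (hdeg : ∀ v, 4 ≤ (G.neighborSet v).ncard) :
    ∃ n, 4 ≤ n ∧ (∀ v, (G.neighborSet v).ncard = n) ∧
      Nonempty (G ≃g completeBipartiteGraph (Fin n) (Fin n)) := by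
  classical
  have := Fintype.ofFinite V
  obtain ⟨s, hv, hs⟩ := exists_sign hb.1
  have hy := hyp_of hb hc hdeg hv hs
  have hadj : ∀ u v, G.Adj u v ↔ s u ≠ s v := by
    intro u v
    exact ⟨fun h => hy.ne h, complete hy u v⟩
  -- the two sides have the same size
  obtain ⟨M, hM⟩ := hc.1
  obtain ⟨g, hg1, hg2⟩ := partner M hM
  have hgadj : ∀ x, G.Adj x (g x) := fun x => (M.adj_sub (hg1 x))
  have hgg : ∀ v, g (g v) = v := fun v => (hg2 _ _ (hg1 v).symm).symm
  have hswap : ∀ v, s (g v) = - s v := fun v => hs _ _ (hgadj v)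
  let e : {v // s v = 1} ≃ {v // ¬ s v = 1} :=
    { toFun := fun v => ⟨g v.1, by rw [hswap, v.2]; norm_num⟩
      invFun := fun v => ⟨g v.1, by
        rw [hswap]
        rcases hv v.1 with h | h
        · exact absurd h v.2
        · rw [h]; norm_num⟩
      left_inv := fun v => Subtype.ext (hgg v.1)
      right_inv := fun v => Subtype.ext (hgg v.1) }
  set n := Fintype.card {v // s v = 1} with hn
  let eA : {v // s v = 1} ≃ Fin n := Fintype.equivFin _
  let eB : {v // ¬ s v = 1} ≃ Fin n := e.symm.trans eA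
  have hncard : ∀ v, (G.neighborSet v).ncard = n := by
    intro v
    have h1 : G.neighborSet v = {w | s v ≠ s w} := by
      ext w
      exact hadj v w
    rcases hv v with h | h
    · have h2 : G.neighborSet v = {w | ¬ s w = 1} := by
        rw [h1, h]
        ext w
        exact ⟨fun h3 h4 => h3 h4.symm, fun h3 h4 => h3 h4.symm⟩
      rw [h2, hn, ← Nat.card_coe_set_eq, ← Nat.card_eq_fintype_card]
      exact (Nat.card_congr e).symm
    · have h2 : G.neighborSet v = {w | s w = 1} := by
        rw [h1, h]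
        ext w
        rcases hv w with h3 | h3
        · simp [h3]
        · simp [h3]
      rw [h2, hn, ← Nat.card_coe_set_eq, ← Nat.card_eq_fintype_card]
      rfl
  obtain ⟨v0⟩ := hy.conn.nonempty
  refine ⟨n, by rw [← hncard v0]; exact hdeg v0, hncard, ⟨?_⟩⟩
  refine ⟨(Equiv.sumCompl (fun v => s v = 1)).symm.trans (Equiv.sumCongr eA eB), ?_⟩
  intro a b
  rw [hadj]
  by_cases ha : s a = 1 <;> by_cases hb' : s b = 1
  · simp [ha, hb', completeBipartiteGraph, Equiv.sumCompl_symm_apply_of_pos]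
  · simp [ha, hb', completeBipartiteGraph, Equiv.sumCompl_symm_apply_of_pos,
      Equiv.sumCompl_symm_apply_of_neg]
    exact fun h => hb' h.symm
  · simp [ha, hb', completeBipartiteGraph, Equiv.sumCompl_symm_apply_of_pos,
      Equiv.sumCompl_symm_apply_of_neg]
  · have h1 : s a = s b := by
      have := hv a
      have := hv b
      omega
    simp [ha, hb', h1, completeBipartiteGraph, Equiv.sumCompl_symm_apply_of_neg]

end Pool.Agent.Work.MP_7d1d14_co
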