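import Pool.Agent.Work.MP_7d1d14_co.Step5

/-!
Step 8: the graph is complete bipartite.
-/

namespace Pool.Agent.Work.MP_7d1d14_co

universe u

variable {V : Type u} {G : SimpleGraph V} {s : V → ℤ} {f : ℤ → V} {N : ℤ} {p q : V}

theorem gap_one [Fintype V] (hy : Hyp G s) (c : Cfg G f N p q) {a b : ℤ}
    (hab : Gap G f p q a b) : b = a + 1 := by
  rcases hab.type hy c with h | h
  · exact arc_empty hy c.swap hab.swap h.1 h.2
  · exact arc_empty hy c hab h.1 h.2

theorem all_T [Fintype V] (hy : Hyp G s) (c : Cfg G f N p q) (k : ℤ) : TT G f p q k := by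
  by_contra hk
  obtain ⟨e, g, heg, h1, h2⟩ := exists_gap hy c k hk
  have := gap_one hy c heg
  omega

theorem gap_succ [Fintype V] (hy : Hyp G s) (c : Cfg G f N p q) (k : ℤ) :
    Gap G f p q k (k + 1) :=
  ⟨by omega, all_T hy c _, all_T hy c _, fun l h1 h2 => by omega⟩

/-- connected attachments of `q` are equal -/
theorem QC_eq [Fintype V] (hy : Hyp G s) (c : Cfg G f N p q) {i k : ℤ} (hi : G.Adj q (f i))
    (hk : G.Adj q (f k)) (hQ : QC G f p q (f i) (f k)) : f i = f k := by
  obtain ⟨j, hj1, hj2, hj3⟩ := c.window' k i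
  rw [← hj3] at hk hQ ⊢
  rcases eq_or_lt_of_le hj2 with h | h
  · rw [h, c.per]
  · exfalso
    have h1 := (gap_succ hy c i).type_q hy c hi
    have h2 := (gap_succ hy c j).type_q hy c hk
    exact EF hy c.swap (i := i) (i' := i + 1) (j := j) (j' := j + 1) (by omega) (by omega)
      (by omega) (by omega) h1 h2 (fun l h3 h4 => by omega) (fun l h3 h4 => by omega) hQ.swap

theorem all_SS [Fintype V] (hy : Hyp G s) (c : Cfg G f N p q) (o : V) : o ∈ SS f p q := by
  by_contra ho
  -- an attachment of the component of `o`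
  obtain ⟨i, w, hiw, hw⟩ : ∃ i w, G.Adj (f i) w ∧ Rch G (SS f p q) o w := by
    by_contra hno
    push Not at hno
    have key : ∀ v, G.Reachable o v → Rch G (SS f p q) o v := by
      intro v hv
      have h2 := (SimpleGraph.reachable_iff_reflTransGen o v).1 hv
      induction h2 with
      | refl => exact Rch.refl _ _
      | tail h3 h4 ih =>
        have h5 := ih ((SimpleGraph.reachable_iff_reflTransGen _ _).2 h3)
        have h6 := h5.not_mem ho
        refine h5.step h4 h6 ?_
        rintro (⟨k, rfl⟩ | rfl | rfl)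
        · exact hno k _ h4.symm h5
        · rcases c.np _ h4.symm with h7 | ⟨k, h7⟩
          · exact h6 (by rw [h7]; exact mem_SS_q)
          · exact h6 (by rw [← h7]; exact mem_SS_f k)
        · rcases c.nq _ h4.symm with h7 | ⟨k, h7⟩
          · exact h6 (by rw [h7]; exact mem_SS_p)
          · exact h6 (by rw [← h7]; exact mem_SS_f k)
    exact (key p (hy.conn.preconnected o p)).not_mem ho mem_SS_p
  have hwo := hw.not_mem ho
  have hQC : ∀ k w', G.Adj (f k) w' → Rch G (SS f p q) o w' → ∀ l w'', G.Adj (f l) w'' →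
      Rch G (SS f p q) o w'' → QC G f p q (f k) (f l) := by
    intro k w' h1 h2 l w'' h3 h4
    exact Or.inr ⟨w', w'', h2.not_mem ho, h1, h2.symm.trans h4, h3.symm⟩
  have hsame : ∀ k w', G.Adj (f k) w' → Rch G (SS f p q) o w' → ∀ l w'', G.Adj (f l) w'' →
      Rch G (SS f p q) o w'' → (G.Adj q (f k) ∧ G.Adj q (f l)) ∨ (G.Adj p (f k) ∧ G.Adj p (f l)) →
      f k = f l := by
    intro k w' h1 h2 l w'' h3 h4 h5
    have hQ := hQC k w' h1 h2 l w'' h3 h4
    rcases h5 with h5 | h5
    · exact QC_eq hy c h5.1 h5.2 hQ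
    · exact QC_eq hy c.swap h5.1 h5.2 hQ.swap
  by_cases hex : ∃ j w', G.Adj (f j) w' ∧ Rch G (SS f p q) o w' ∧ f j ≠ f i
  · obtain ⟨j, w', h1, h2, h3⟩ := hex
    refine out_two hy c ho (i := i) (j := j) (Ne.symm h3) (all_T hy c j) ⟨w, hiw, hw⟩ ?_
    intro k w'' h4 h5
    have hij := hsame i w hiw hw j w' h1 h2
    have hki := hsame k w'' h4 h5 i w hiw hw
    have hkj := hsame k w'' h4 h5 j w' h1 h2
    rcases all_T hy c i with t1 | t1 <;> rcases all_T hy c j with t2 | t2 <;>
      rcases all_T hy c k with t3 | t3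
    · exact absurd (hij (Or.inr ⟨t1, t2⟩)).symm h3
    · exact absurd (hij (Or.inr ⟨t1, t2⟩)).symm h3
    · exact Or.inl (hki (Or.inr ⟨t3, t1⟩))
    · exact Or.inr (hkj (Or.inl ⟨t3, t2⟩))
    · exact Or.inr (hkj (Or.inr ⟨t3, t2⟩))
    · exact Or.inl (hki (Or.inl ⟨t3, t1⟩))
    · exact absurd (hij (Or.inl ⟨t1, t2⟩)).symm h3
    · exact absurd (hij (Or.inl ⟨t1, t2⟩)).symm h3
  · push Not at hex
    refine out_two hy c ho (i := i) (j := i + 1) ?_ (all_T hy c _) ⟨w, hiw, hw⟩ ?_
    · intro h
      have := c.N4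
      have := c.inj h (by omega) (by omega)
      omega
    · intro k w'' h4 h5
      exact Or.inl (hex k w'' h4 h5)

/-- the attachments of different kinds are adjacent -/
theorem adj_pq [Fintype V] (hy : Hyp G s) (c : Cfg G f N p q) {i k : ℤ} (hi : G.Adj p (f i))
    (hk : G.Adj q (f k)) : G.Adj (f i) (f k) := by
  obtain ⟨j, hj1, hj2, hj3⟩ := c.window' k i
  rw [← hj3] at hk ⊢
  have e1 : G.Adj q (f (i - 1)) := by
    have := gap_succ hy c (i - 1)
    rw [show i - 1 + 1 = i by ring] at this
    exact this.type_p' hy c hi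
  have e2 : G.Adj q (f (i + 1)) := (gap_succ hy c i).type_p hy c hi
  have e3 : G.Adj p (f (j - 1)) := by
    have := gap_succ hy c (j - 1)
    rw [show j - 1 + 1 = j by ring] at this
    exact this.type_q' hy c hk
  have e4 : G.Adj p (f (j + 1)) := (gap_succ hy c j).type_q hy c hk
  have r1 : j ≠ i + N := by
    rintro rfl
    rw [c.per] at hk
    exact c.excl hy hi hk
  have r2 : j ≠ i + 2 := by
    intro h
    have : j - 1 = i + 1 := by omega
    rw [this] at e3
    exact c.excl hy e3 e2
  have r3 : j ≠ i + N - 2 := by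
    intro h
    have h2 : j + 1 = i - 1 + N := by omega
    rw [h2, c.per] at e4
    exact c.excl hy e4 e1
  rcases eq_or_lt_of_le (show i + 1 ≤ j by omega) with h | h
  · rw [← h]
    exact c.adj i
  · rcases eq_or_lt_of_le (show j ≤ i + N - 1 by omega) with h' | h'
    · have h2 := c.adj j
      rw [show j + 1 = i + N by omega, c.per] at h2
      exact h2.symm
    · have g1 := gap_succ hy c (i - 1)
      rw [show i - 1 + 1 = i by ring] at g1
      have g3 := gap_succ hy c (j - 1)
      rw [show j - 1 + 1 = j by ring] at g3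
      exact A2 hy c g1 (gap_succ hy c i) g3 (gap_succ hy c j) e1 hi e2 e3 hk e4 (by omega)
        (by omega)

theorem complete_of_cfg [Fintype V] (hy : Hyp G s) (c : Cfg G f N p q) (u v : V)
    (huv : s u ≠ s v) : G.Adj u v := by
  have hp : ∀ k, s (f k) ≠ s p → G.Adj p (f k) := by
    intro k hk
    rcases all_T hy c k with h | h
    · exact h
    · exfalso
      have h1 := hy.s_adj _ _ h
      have h2 := hy.s_adj _ _ c.pq
      omega
  have hq : ∀ k, s (f k) ≠ s q → G.Adj q (f k) := by
    intro k hk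
    rcases all_T hy c k with h | h
    · exfalso
      have h1 := hy.s_adj _ _ h
      have h2 := hy.s_adj _ _ c.pq
      omega
    · exact h
  rcases all_SS hy c u with ⟨i, rfl⟩ | rfl | rfl <;> rcases all_SS hy c v with ⟨j, rfl⟩ | rfl | rfl
  · have h1 := hy.s_val p
    have h2 := hy.s_adj _ _ c.pq
    have h3 := hy.s_val (f i)
    have h4 := hy.s_val (f j)
    rcases eq_or_ne (s (f i)) (s p) with h5 | h5
    · exact (adj_pq hy c (hp j (by omega)) (hq i (by omega))).symm
    · exact adj_pq hy c (hp i h5) (hq j (by omega))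
  · exact (hp i huv).symm
  · exact (hq i huv).symm
  · exact hp j huv.symm
  · exact absurd rfl huv
  · exact c.pq
  · exact hq j huv.symm
  · exact c.pq.symm
  · exact absurd rfl huv

end Pool.Agent.Work.MP_7d1d14_co
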