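import Pool.Agent.Work.MP_7d1d14_co.Exist
import Pool.Agent.Work.MP_7d1d14_co.Step6

/-!
Step 1, continued: the minimal component outside a cycle is an edge.
-/

namespace Pool.Agent.Work.MP_7d1d14_co

universe u

variable {V : Type u} {G : SimpleGraph V} {s : V → ℤ} {f : ℤ → V} {N : ℤ}

/-- the component of `u` outside the cycle `f` -/
noncomputable def KK [Fintype V] (G : SimpleGraph V) (f : ℤ → V) (u : V) : Finset V := by
  classical
  exact Finset.univ.filter (fun v => Rch G (Set.range f) u v)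

theorem mem_KK [Fintype V] {u v : V} : v ∈ KK G f u ↔ Rch G (Set.range f) u v := by
  classical
  simp [KK]

/-- the component is as small as possible -/
def IsMin [Fintype V] (G : SimpleGraph V) (f : ℤ → V) (u : V) : Prop :=
  ∀ f' N' u', Cyc4 G f' N' → u' ∉ Set.range f' → (KK G f u).card ≤ (KK G f' u').card

theorem exists_min [Fintype V] (hy : Hyp G s) :
    ∃ f N u, Cyc4 G f N ∧ u ∉ Set.range f ∧ IsMin G f u := by
  classical
  obtain ⟨l, u, hl, hu⟩ := exists_cyc hy
  obtain ⟨f, N, hf, hfl⟩ := hl.exists_f hy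
  have hex : ∃ n, ∃ f N u, Cyc4 G f N ∧ u ∉ Set.range f ∧ (KK G f u).card = n :=
    ⟨_, f, N, u, hf, fun h => hu ((hfl u).1 h), rfl⟩
  obtain ⟨f, N, u, h1, h2, h3⟩ := Nat.find_spec hex
  refine ⟨f, N, u, h1, h2, ?_⟩
  intro f' N' u' h4 h5
  rw [h3]
  exact Nat.find_min' hex ⟨f', N', u', h4, h5, rfl⟩

variable [Fintype V]

theorem KK_not {u v : V} (hu : u ∉ Set.range f) (hv : v ∈ KK G f u) : v ∉ Set.range f :=
  (mem_KK.1 hv).not_mem hu

theorem KK_closed {u v w : V} (hu : u ∉ Set.range f) (hv : v ∈ KK G f u) (hvw : G.Adj v w) :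
    w ∈ KK G f u ∨ w ∈ Set.range f := by
  by_cases hw : w ∈ Set.range f
  · exact Or.inr hw
  · left
    rw [mem_KK] at hv ⊢
    exact hv.step hvw (hv.not_mem hu) hw

theorem KK_sum (hy : Hyp G s) (c : Cyc4 G f N) {u : V} (hu : u ∉ Set.range f) :
    ∑ v ∈ KK G f u, s v = 0 := by
  refine hy.bal _ (c.isCyc 0) (KK G f u) ?_ ?_
  · intro v hv h
    rw [c.mem_cyc] at h
    exact KK_not hu hv h
  · intro v hv w hvw
    rw [c.mem_cyc]
    exact KK_closed hu hv hvw

/-- paths between consecutive attachments span the minimal component -/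
theorem spans (hy : Hyp G s) (c : Cyc4 G f N) {u : V} (hu : u ∉ Set.range f)
    (hmin : IsMin G f u) {i j : ℤ} (hij : i < j) (hjN : j < i + N) {w w' : V}
    (hw : G.Adj (f i) w) (hw' : G.Adj (f j) w')
    (hno : ∀ k, i < k → k < j → ∀ v ∈ KK G f u, ¬ G.Adj (f k) v) {P : List V}
    (hP : Pth G w P w') (hPn : P.Nodup) (hPK : ∀ v ∈ P, v ∈ KK G f u) :
    ∀ v ∈ KK G f u, v ∈ P := by
  classical
  intro v0 hv0
  by_contra hv0P
  have h1 : Pth G (f i) (f i :: arc f (i + 1) (j - 1)) (f (j - 1)) := by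
    rw [← arc_cons i (j - 1) (by omega)]
    exact arc_pth c.adj _ _ (by omega)
  have h2 : Pth G (f j) (arc f j (i + N - 1)) (f (i + N - 1)) := arc_pth c.adj _ _ (by omega)
  have hsplit : arc f i (i + N - 1) = f i :: arc f (i + 1) (j - 1) ++ arc f j (i + N - 1) := by
    rw [← arc_cons i (j - 1) (by omega), ← arc_split i j (i + N - 1) (by omega) (by omega)]
  have hcyc' := reroute (L := arc f j (i + N - 1)) h1 h2 (by
      have := c.adj (i + N - 1)
      rwa [show i + N - 1 + 1 = i + N by ring, c.per] at this) (by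
      rw [← hsplit]
      exact c.arcn _ _ (by omega)) hP hPn (by
      intro v hv
      rw [← hsplit, c.mem_cyc]
      exact KK_not hu (hPK v hv)) hw hw'
  obtain ⟨f', N', hf', hmem⟩ := hcyc'.exists_f hy
  have hmem' : ∀ v, v ∈ Set.range f' ↔ v ∈ P ∨ ∃ k, (k = i ∨ (j ≤ k ∧ k < i + N)) ∧ f k = v := by
    intro v
    rw [hmem]
    simp only [List.cons_append, List.mem_cons, List.mem_append, mem_arc]
    constructor
    · rintro (rfl | h | ⟨k, h3, h4, rfl⟩)
      · exact Or.inr ⟨i, Or.inl rfl, rfl⟩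
      · exact Or.inl h
      · exact Or.inr ⟨k, Or.inr ⟨h3, by omega⟩, rfl⟩
    · rintro (h | ⟨k, (rfl | ⟨h3, h4⟩), rfl⟩)
      · exact Or.inr (Or.inl h)
      · exact Or.inl rfl
      · exact Or.inr (Or.inr ⟨k, h3, by omega, rfl⟩)
  have hv0' : v0 ∉ Set.range f' := by
    rw [hmem']
    rintro (h | ⟨k, -, rfl⟩)
    · exact hv0P h
    · exact KK_not hu hv0 ⟨k, rfl⟩
  have hsub : ∀ v ∈ KK G f' v0, v ∈ KK G f u ∧ v ∉ P := by
    intro v hv
    rw [mem_KK] at hv
    refine Rch.induction (P := fun v => v ∈ KK G f u ∧ v ∉ P) ⟨hv0, hv0P⟩ ?_ hv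
    intro a b _ hab hadj _ hb
    have hbP : b ∉ P := fun h => hb ((hmem' b).2 (Or.inl h))
    rcases KK_closed hu hab.1 hadj with h | ⟨k, rfl⟩
    · exact ⟨h, hbP⟩
    · exfalso
      obtain ⟨l, hl1, hl2, hl3⟩ := c.window k i
      have h3 : l ≠ i ∧ l < j := by
        by_contra hcon
        apply hb
        rw [hmem']
        exact Or.inr ⟨l, by omega, hl3⟩
      refine hno l (by omega) h3.2 a hab.1 ?_
      rw [hl3]
      exact hadj.symm
  have hlt : (KK G f' v0).card < (KK G f u).card := by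
    apply Finset.card_lt_card
    rw [Finset.ssubset_iff_of_subset (fun v hv => (hsub v hv).1)]
    exact ⟨w, hPK w hP.head_mem, fun h => (hsub w h).2 hP.head_mem⟩
  have := hmin f' N' v0 hf' hv0'
  omega

/-- position `k` is attached to the component -/
def Att (G : SimpleGraph V) (f : ℤ → V) (u : V) (k : ℤ) : Prop := ∃ w ∈ KK G f u, G.Adj (f k) w

theorem exists_att (hy : Hyp G s) (c : Cyc4 G f N) {u : V} (hu : u ∉ Set.range f) :
    ∃ i, Att G f u i := by
  by_contra hno
  have key : ∀ v, G.Reachable u v → v ∈ KK G f u := by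
    intro v hv
    have h2 := (SimpleGraph.reachable_iff_reflTransGen u v).1 hv
    induction h2 with
    | refl => exact mem_KK.2 (Rch.refl _ _)
    | tail h3 h4 ih =>
      have h5 := ih ((SimpleGraph.reachable_iff_reflTransGen _ _).2 h3)
      rcases KK_closed hu h5 h4 with h | ⟨k, rfl⟩
      · exact h
      · exact absurd ⟨k, _, h5, h4.symm⟩ hno
  exact KK_not hu (key (f 0) (hy.conn.preconnected u (f 0))) ⟨0, rfl⟩

theorem next_att (hy : Hyp G s) (c : Cyc4 G f N) {u : V} (hu : u ∉ Set.range f) {i : ℤ}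
    (hi : Att G f u i) : ∃ j, i < j ∧ j < i + N ∧ Att G f u j ∧
      ∀ k, i < k → k < j → ∀ v ∈ KK G f u, ¬ G.Adj (f k) v := by
  classical
  have hN := c.N4
  have hex : ∃ n : ℕ, Att G f u (i + 1 + n) := ⟨(N - 1).toNat, by
    obtain ⟨w, hw, hiw⟩ := hi
    refine ⟨w, hw, ?_⟩
    have h1 : i + 1 + ((N - 1).toNat : ℤ) = i + N := by omega
    rw [h1, c.per]
    exact hiw⟩
  have hspec := Nat.find_spec hex
  have hmin : ∀ k, i < k → k < i + 1 + Nat.find hex → ∀ v ∈ KK G f u, ¬ G.Adj (f k) v := by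
    intro k hk1 hk2 v hv hadj
    refine Nat.find_min hex (m := (k - (i + 1)).toNat) (by omega) ⟨v, hv, ?_⟩
    rwa [show i + 1 + ((k - (i + 1)).toNat : ℤ) = k by omega]
  refine ⟨i + 1 + Nat.find hex, by omega, ?_, hspec, hmin⟩
  by_contra hcon
  -- then `f i` is the only attachment
  obtain ⟨w, hw, hiw⟩ := hi
  have honly : ∀ a ∈ KK G f u, ∀ v, G.Adj a v → v ∈ KK G f u ∨ v = f i ∨ v = f (i + 1) := by
    intro a ha v hav
    rcases KK_closed hu ha hav with h | ⟨k, rfl⟩
    · exact Or.inl h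
    · right
      left
      obtain ⟨l, hl1, hl2, hl3⟩ := c.window k i
      rcases eq_or_lt_of_le hl1 with h | h
      · rw [← hl3, h]
      · exfalso
        refine hmin l h (by omega) a ha ?_
        rw [hl3]
        exact hav.symm
  have hfK : ∀ k, f k ∉ KK G f u := fun k hk => KK_not hu hk ⟨k, rfl⟩
  refine hy.br (KK G f u) (f i) (f (i + 1)) w (f (i + 2)) (hfK _) (hfK _) ?_ hw (hfK _) ?_ hiw ?_
    honly (KK_sum hy c hu)
  · intro h
    have := c.inj h (by omega) (by omega)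
    omega
  · intro h
    have := c.inj h (by omega) (by omega)
    omega
  · have := c.adj (i + 1)
    rwa [show i + 1 + 1 = i + 2 by ring] at this

/-- a spanning path from a neighbour of `f i` -/
theorem exists_span (hy : Hyp G s) (c : Cyc4 G f N) {u : V} (hu : u ∉ Set.range f)
    (hmin : IsMin G f u) {i : ℤ} {w : V} (hw : w ∈ KK G f u) (hiw : G.Adj (f i) w) :
    ∃ P w', Pth G w P w' ∧ P.Nodup ∧ (∀ v, v ∈ P ↔ v ∈ KK G f u) ∧
      ∀ w'' P', G.Adj (f i) w'' → Pth G w'' P' w' → P'.Nodup → (∀ v ∈ P', v ∈ KK G f u) →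
        ∀ v ∈ KK G f u, v ∈ P' := by
  obtain ⟨j, hj1, hj2, ⟨w', hw', hjw⟩, hno⟩ := next_att hy c hu ⟨w, hw, hiw⟩
  obtain ⟨P, hP, hPn, hPr⟩ := Rch.exists_pth ((mem_KK.1 hw).symm.trans (mem_KK.1 hw'))
  have hPK : ∀ v ∈ P, v ∈ KK G f u := fun v hv => mem_KK.2 ((mem_KK.1 hw).trans (hPr v hv))
  have key : ∀ w'' P', G.Adj (f i) w'' → Pth G w'' P' w' → P'.Nodup →
      (∀ v ∈ P', v ∈ KK G f u) → ∀ v ∈ KK G f u, v ∈ P' :=
    fun w'' P' h1 h2 h3 h4 => spans hy c hu hmin hj1 hj2 h1 hjw hno h2 h3 h4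
  exact ⟨P, w', hP, hPn, fun v => ⟨hPK v, key w P hiw hP hPn hPK v⟩, key⟩

/-- an attached vertex has at most one neighbour inside -/
theorem one_nb (hy : Hyp G s) (c : Cyc4 G f N) {u : V} (hu : u ∉ Set.range f)
    (hmin : IsMin G f u) {i : ℤ} {w : V} (hw : w ∈ KK G f u) (hiw : G.Adj (f i) w) :
    ∀ a ∈ KK G f u, ∀ b ∈ KK G f u, G.Adj w a → G.Adj w b → a = b := by
  obtain ⟨P, w', hP, hPn, hPm, hkey⟩ := exists_span hy c hu hmin hw hiw
  obtain ⟨R, rfl⟩ := hP.eq_cons
  -- every inside neighbour is the second vertex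
  have h2 : ∀ b ∈ KK G f u, G.Adj w b → ∃ B, R = b :: B := by
    intro b hb hwb
    have hbR : b ∈ R := by
      have := (hPm b).2 hb
      rw [List.mem_cons] at this
      rcases this with h | h
      · exact absurd h hwb.ne'
      · exact h
    obtain ⟨A, B, hR⟩ := List.append_of_mem hbR
    rcases A with _ | ⟨a, A⟩
    · exact ⟨B, hR⟩
    · exfalso
      rw [hR] at hPn hP
      have hPn2 := hPn
      simp only [List.cons_append, List.nodup_cons, List.mem_cons, List.mem_append,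
        List.nodup_append, not_or] at hPn2
      have hpth : Pth G w (w :: b :: B) w' := by
        obtain ⟨g1, g2, g3⟩ := hP
        refine ⟨rfl, ?_, ?_⟩
        · rw [← g2]
          simp [List.getLast?_cons]
        · rw [List.isChain_cons_cons]
          refine ⟨hwb, ?_⟩
          have : w :: ((a :: A) ++ b :: B) = (w :: a :: A) ++ (b :: B) := by simp
          rw [this] at g3
          exact g3.right_of_append
      have hin : ∀ v ∈ w :: b :: B, v ∈ KK G f u := by
        intro v hv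
        rw [← hPm, hR]
        simp only [List.mem_cons, List.cons_append, List.mem_append] at hv ⊢
        tauto
      have haK : a ∈ KK G f u := by
        rw [← hPm, hR]
        simp
      have ha := hkey w (w :: b :: B) hiw hpth (by
        simp only [List.nodup_cons, List.mem_cons, not_or]
        exact ⟨⟨hPn2.1.2.2.1, hPn2.1.2.2.2⟩, hPn2.2.2.2.1.1, hPn2.2.2.2.1.2⟩) hin a haK
      simp only [List.mem_cons] at ha
      rcases ha with h | h | h
      · exact hPn2.1.1 h.symm
      · exact hPn2.2.1.2.1 h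
      · exact hPn2.2.1.2.2 h
  intro a ha b hb hwa hwb
  obtain ⟨B1, h3⟩ := h2 a ha hwa
  obtain ⟨B2, h4⟩ := h2 b hb hwb
  rw [h3] at h4
  simp only [List.cons.injEq] at h4
  exact h4.1

end Pool.Agent.Work.MP_7d1d14_co
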