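import Pool.Agent.Work.MP_7d1d14_co.Minimal

/-!
Step 1, end: existence of a configuration, and the main theorem in abstract form.
-/

namespace Pool.Agent.Work.MP_7d1d14_co

universe u

variable {V : Type u} {G : SimpleGraph V} {s : V → ℤ} {f : ℤ → V} {N : ℤ}

theorem Pth.split_mid {a b m : V} {A B : List V} (h : Pth G a (A ++ m :: B) b) :
    Pth G a (A ++ [m]) m ∧ Pth G m (m :: B) b := by
  obtain ⟨h1, h2, h3⟩ := h
  refine ⟨⟨?_, by simp, ?_⟩, ⟨rfl, ?_, h3.right_of_append⟩⟩
  · rw [← h1]
    cases A <;> rfl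
  · have : A ++ m :: B = (A ++ [m]) ++ B := by simp
    rw [this] at h3
    exact h3.left_of_append
  · rw [← h2, List.getLast?_append]
    simp [List.getLast?_cons]

theorem Pth.glue {a b c d : V} {A C : List V} (h1 : Pth G a (A ++ [b]) b)
    (h2 : Pth G c (c :: C) d) (h : G.Adj b c) : Pth G a (A ++ b :: c :: C) d := by
  have := h1.append h2 h
  rwa [List.append_assoc, List.singleton_append] at this

variable [Fintype V]

theorem all_att (hy : Hyp G s) (c : Cyc4 G f N) {u : V} (hu : u ∉ Set.range f)
    (hmin : IsMin G f u) {v : V} (hv : v ∈ KK G f u) : ∃ k, G.Adj (f k) v := by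
  classical
  by_contra hno
  push Not at hno
  obtain ⟨i, w, hw, hiw⟩ := exists_att hy c hu
  obtain ⟨P, w', hP, hPn, hPm, hkey⟩ := exists_span hy c hu hmin hw hiw
  obtain ⟨X, Y, hXY⟩ := List.append_of_mem ((hPm v).2 hv)
  obtain ⟨b, hvb, hbF⟩ := hy.deg v (X.getLast?.toFinset ∪ Y.head?.toFinset) (by
    refine (Finset.card_union_le _ _).trans ?_
    have h1 : ∀ o : Option V, o.toFinset.card ≤ 1 := by
      intro o
      cases o <;> simp
    have h2 := h1 X.getLast?
    have h3 := h1 Y.head?
    omega)
  rw [Finset.mem_union, not_or, Option.mem_toFinset, Option.mem_toFinset] at hbF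
  have hbK : b ∈ KK G f u := by
    rcases KK_closed hu hv hvb with h | ⟨k, rfl⟩
    · exact h
    · exact absurd hvb.symm (hno k)
  have hbP := (hPm b).2 hbK
  rw [hXY, List.mem_append, List.mem_cons] at hbP
  rw [hXY] at hP hPn
  have hPm' : ∀ x, x ∈ X ++ v :: Y ↔ x ∈ KK G f u := by
    intro x
    rw [← hXY]
    exact hPm x
  rcases hbP with hb | hb | hb
  · -- `b` before `v`
    obtain ⟨X1, X2, hX⟩ := List.append_of_mem hb
    rcases X2 with _ | ⟨y, X2⟩
    · exact hbF.1 (by rw [hX]; simp)
    · subst hX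
      have h1 : Pth G w (X1 ++ b :: v :: Y) w' := by
        have e1 : (X1 ++ b :: y :: X2) ++ v :: Y = X1 ++ b :: (y :: X2 ++ v :: Y) := by simp
        have h2 := hP.split_mid.2
        rw [e1] at hP
        exact hP.split_mid.1.glue h2 hvb.symm
      have hyK : y ∈ KK G f u := (hPm' y).1 (by simp)
      have hmem := hkey w _ hiw h1 (by
        simp only [List.nodup_append, List.nodup_cons, List.mem_cons, List.mem_append,
          List.append_assoc, List.cons_append, not_or] at hPn ⊢
        refine ⟨hPn.1, ⟨⟨hPn.2.1.1.2.2.1, hPn.2.1.1.2.2.2⟩, hPn.2.1.2.2.2.1⟩, ?_⟩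
        intro x hx z hz
        exact hPn.2.2 x hx z (by tauto)) (by
        intro x hx
        rw [← hPm']
        simp only [List.mem_cons, List.mem_append] at hx ⊢
        tauto) y hyK
      simp only [List.nodup_append, List.nodup_cons, List.mem_cons, List.mem_append,
          List.append_assoc, List.cons_append, not_or] at hPn
      simp only [List.mem_append, List.mem_cons] at hmem
      rcases hmem with h | h | h | h
      · exact hPn.2.2 y h y (by tauto) rfl
      · exact hPn.2.1.1.1 h.symm
      · exact hPn.2.1.2.1.2.1 h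
      · exact hPn.2.1.2.1.2.2 h
  · exact hvb.ne' hb
  · -- `b` after `v`
    obtain ⟨Y1, Y2, hY⟩ := List.append_of_mem hb
    rcases Y1 with _ | ⟨y, Y1⟩
    · exact hbF.2 (by rw [hY]; simp)
    · subst hY
      have h1 : Pth G w (X ++ v :: b :: Y2) w' := by
        have e1 : X ++ v :: (y :: Y1 ++ b :: Y2) = (X ++ v :: y :: Y1) ++ b :: Y2 := by simp
        have h2 := hP.split_mid.1
        rw [e1] at hP
        exact h2.glue hP.split_mid.2 hvb
      have hyK : y ∈ KK G f u := (hPm' y).1 (by simp)
      have hmem := hkey w _ hiw h1 (by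
        simp only [List.nodup_append, List.nodup_cons, List.mem_cons, List.mem_append,
          List.append_assoc, List.cons_append, not_or] at hPn ⊢
        refine ⟨hPn.1, ⟨⟨hPn.2.1.1.2.2.1, hPn.2.1.1.2.2.2⟩, hPn.2.1.2.2.2.1⟩, ?_⟩
        intro x hx z hz
        exact hPn.2.2 x hx z (by tauto)) (by
        intro x hx
        rw [← hPm']
        simp only [List.mem_cons, List.mem_append, List.cons_append] at hx ⊢
        tauto) y hyK
      simp only [List.nodup_append, List.nodup_cons, List.mem_cons, List.mem_append,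
          List.append_assoc, List.cons_append, not_or] at hPn
      simp only [List.mem_append, List.mem_cons] at hmem
      rcases hmem with h | h | h | h
      · exact hPn.2.2 y h y (by tauto) rfl
      · exact hPn.2.1.1.1 h.symm
      · exact hPn.2.1.2.1.2.1 h
      · exact hPn.2.1.2.1.2.2 h

theorem exists_pair (hy : Hyp G s) (c : Cyc4 G f N) {u : V} (hu : u ∉ Set.range f)
    (hmin : IsMin G f u) : ∃ p q, G.Adj p q ∧ ∀ v, v ∈ KK G f u ↔ v = p ∨ v = q := by
  classical
  obtain ⟨i, w, hw, hiw⟩ := exists_att hy c hu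
  obtain ⟨P, w', hP, hPn, hPm, -⟩ := exists_span hy c hu hmin hw hiw
  obtain ⟨R, rfl⟩ := hP.eq_cons
  rcases R with _ | ⟨a, R⟩
  · exfalso
    have h1 : KK G f u = {w} := by
      ext v
      rw [← hPm]
      simp
    have h2 := KK_sum hy c hu
    rw [h1, Finset.sum_singleton] at h2
    have := hy.s_val w
    omega
  · have hwa : G.Adj w a := (List.isChain_cons_cons.1 hP.2.2).1
    rcases R with _ | ⟨b, R⟩
    · refine ⟨w, a, hwa, fun v => ?_⟩
      rw [← hPm]
      simp
    · exfalso
      have hab : G.Adj a b := (List.isChain_cons_cons.1 (List.isChain_cons_cons.1 hP.2.2).2).1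
      have haK : a ∈ KK G f u := (hPm a).1 (by simp)
      have hbK : b ∈ KK G f u := (hPm b).1 (by simp)
      obtain ⟨k, hk⟩ := all_att hy c hu hmin haK
      have h1 := one_nb hy c hu hmin haK hk w hw b hbK hwa.symm hab
      simp only [List.nodup_cons, List.mem_cons, not_or] at hPn
      exact hPn.1.2.1 h1

theorem exists_cfg (hy : Hyp G s) : ∃ f N p q, Cfg G f N p q := by
  obtain ⟨f, N, u, c, hu, hmin⟩ := exists_min hy
  obtain ⟨p, q, hpq, hK⟩ := exists_pair hy c hu hmin
  have hp : p ∈ KK G f u := (hK p).2 (Or.inl rfl)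
  have hq : q ∈ KK G f u := (hK q).2 (Or.inr rfl)
  refine ⟨f, N, p, q, ⟨c.N4, c.adj, c.feq, hpq, ?_, ?_, ?_, ?_⟩⟩
  · intro k hk
    exact KK_not hu hp ⟨k, hk⟩
  · intro k hk
    exact KK_not hu hq ⟨k, hk⟩
  · intro v hv
    rcases KK_closed hu hp hv with h | h
    · rcases (hK v).1 h with h | h
      · exact absurd h hv.ne'
      · exact Or.inl h
    · exact Or.inr h
  · intro v hv
    rcases KK_closed hu hq hv with h | h
    · rcases (hK v).1 h with h | h
      · exact Or.inl h
      · exact absurd h hv.ne'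
    · exact Or.inr h

/-- the abstract main theorem -/
theorem complete (hy : Hyp G s) (u v : V) (huv : s u ≠ s v) : G.Adj u v := by
  obtain ⟨f, N, p, q, c⟩ := exists_cfg hy
  exact complete_of_cfg hy c u v huv

end Pool.Agent.Work.MP_7d1d14_co
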