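import Pool.Agent.Work.MP_7d1d14_co.ERule

/-!
Step 3: colours of the first outside neighbours.
-/

namespace Pool.Agent.Work.MP_7d1d14_co

universe u

variable {V : Type u} {G : SimpleGraph V} {s : V → ℤ} {f : ℤ → V} {N : ℤ} {p q : V}

/-- the vertices of `A` and the outside vertices connected with them -/
def Inv (G : SimpleGraph V) (f : ℤ → V) (p q : V) (A : Set V) (v : V) : Prop :=
  v ∈ A ∨ (v ∉ SS f p q ∧ ∃ a ∈ A, ∃ o, o ∉ SS f p q ∧ G.Adj a o ∧ Rch G (SS f p q) o v)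

theorem Rch.mono {S S' : Set V} (h : ∀ v, v ∈ S → v ∈ S') {u v : V} (hr : Rch G S' u v) :
    Rch G S u v :=
  Rch.induction (P := fun w => Rch G S u w) (Rch.refl _ _)
    (fun _ _ _ ih hab ha hb => ih.step hab (fun h1 => ha (h _ h1)) (fun h1 => hb (h _ h1))) hr

theorem Inv.step (c : Cfg G f N p q) {A : Set V} {v w : V} (hv : Inv G f p q A v)
    (hvw : G.Adj v w) : Inv G f p q A w ∨ (∃ k, f k = w ∧ ∃ a ∈ A, QC G f p q a w) ∨
      (v ∈ A ∧ (w = p ∨ w = q)) := by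
  rcases hv with hv | ⟨hvS, a, ha, o, hoS, hao, hov⟩
  · by_cases hw : w ∈ SS f p q
    · rcases hw with ⟨k, hk⟩ | hw
      · exact Or.inr (Or.inl ⟨k, hk, v, hv, Or.inl hvw⟩)
      · exact Or.inr (Or.inr ⟨hv, hw⟩)
    · exact Or.inl (Or.inr ⟨hw, v, hv, w, hw, hvw, Rch.refl _ _⟩)
  · by_cases hw : w ∈ SS f p q
    · rcases hw with ⟨k, hk⟩ | rfl | rfl
      · exact Or.inr (Or.inl ⟨k, hk, a, ha, Or.inr ⟨o, v, hoS, hao, hov, hvw⟩⟩)
      · exfalso
        rcases c.np v hvw.symm with h | ⟨k, hk⟩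
        · rw [h] at hvS
          exact hvS mem_SS_q
        · rw [← hk] at hvS
          exact hvS (mem_SS_f k)
      · exfalso
        rcases c.nq v hvw.symm with h | ⟨k, hk⟩
        · rw [h] at hvS
          exact hvS mem_SS_p
        · rw [← hk] at hvS
          exact hvS (mem_SS_f k)
    · exact Or.inl (Or.inr ⟨hw, a, ha, o, hoS, hao, hov.step hvw hvS hw⟩)

theorem comp_inv (c : Cfg G f N p q) {A Z : Set V} {u0 v : V} (h0 : u0 ∈ A)
    (hZ : ∀ k, f k ∉ Z → (∃ a ∈ A, QC G f p q a (f k)) → f k ∈ A)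
    (hpq : ∀ a ∈ A, ¬ G.Adj a p ∧ ¬ G.Adj a q) (h : Rch G Z u0 v) : Inv G f p q A v := by
  refine Rch.induction (P := fun v => Inv G f p q A v) (Or.inl h0) ?_ h
  intro v w _ hv hvw _ hwZ
  rcases hv.step c hvw with h1 | ⟨k, hk, h1⟩ | ⟨h1, h2⟩
  · exact h1
  · rw [← hk] at h1 hwZ ⊢
    exact Or.inl (hZ k hwZ h1)
  · exfalso
    rcases h2 with rfl | rfl
    · exact (hpq v h1).1 hvw
    · exact (hpq v h1).2 hvw

theorem Inv.att (c : Cfg G f N p q) {A : Set V} {w : V} {k : ℤ} (hw : Inv G f p q A w)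
    (hk : G.Adj (f k) w) (hkA : f k ∉ A) : ∃ a ∈ A, QC G f p q a (f k) := by
  rcases hw.step c hk.symm with h1 | ⟨-, -, h1⟩ | ⟨-, h2⟩
  · rcases h1 with h1 | ⟨h1, -⟩
    · exact absurd h1 hkA
    · exact absurd (mem_SS_f k) h1
  · exact h1
  · exfalso
    rcases h2 with h2 | h2
    · exact c.pf k h2
    · exact c.qf k h2

theorem Inv.not_p (c : Cfg G f N p q) {A : Set V} {w : V} (hw : Inv G f p q A w)
    (hA : ∀ a ∈ A, ¬ G.Adj a p) (hqA : q ∉ A) : ¬ G.Adj p w := by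
  intro h
  rcases hw with hw | ⟨hw, -⟩
  · exact hA w hw h.symm
  · rcases c.np w h with rfl | ⟨k, rfl⟩
    · exact hw mem_SS_q
    · exact hw (mem_SS_f k)

theorem Inv.not_q (c : Cfg G f N p q) {A : Set V} {w : V} (hw : Inv G f p q A w)
    (hA : ∀ a ∈ A, ¬ G.Adj a q) (hpA : p ∉ A) : ¬ G.Adj q w := by
  intro h
  rcases hw with hw | ⟨hw, -⟩
  · exact hA w hw h.symm
  · rcases c.nq w h with rfl | ⟨k, rfl⟩
    · exact hw mem_SS_p
    · exact hw (mem_SS_f k)

/-- a connection gives an attachment -/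
theorem att_of_QC {Z : Set V} {u0 a x : V} (hZ : ∀ v, v ∈ Z → v ∈ SS f p q)
    (h0 : Rch G Z u0 a) (ha : a ∉ Z) (hQ : QC G f p q a x) :
    ∃ w, G.Adj x w ∧ Rch G Z u0 w := by
  rcases hQ with h | ⟨o, o', h1, h2, h3, h4⟩
  · exact ⟨a, h.symm, h0⟩
  · refine ⟨o', h4.symm, ?_⟩
    exact (h0.step h2 ha (fun h => h1 (hZ _ h))).trans (h3.mono hZ)

theorem arc_reach (hadj : ∀ k, G.Adj (f k) (f (k + 1))) {Z : Set V} {a b u v : ℤ}
    (hZ : ∀ k, a < k → k < b → f k ∉ Z) (hu1 : a < u) (hu2 : u < b) (hv1 : a < v) (hv2 : v < b) :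
    Rch G Z (f u) (f v) := by
  wlog huv : u ≤ v with H
  · exact (H hadj hZ hv1 hv2 hu1 hu2 (by omega)).symm
  obtain ⟨n, hn⟩ : ∃ n : ℕ, v = u + n := ⟨(v - u).toNat, by omega⟩
  subst hn
  clear huv
  induction n with
  | zero =>
    have : u + ((0 : ℕ) : ℤ) = u := by simp
    rw [this]
    exact Rch.refl _ _
  | succ n ih =>
    have h1 := ih (by push_cast at hv1; omega) (by push_cast at hv2; omega)
    have h2 := hadj (u + n)
    have h3 : u + ((n + 1 : ℕ) : ℤ) = u + n + 1 := by push_cast; ring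
    rw [h3]
    push_cast at hv2
    exact h1.step h2 (hZ _ (by omega) (by omega)) (hZ _ (by omega) (by omega))

/-- the open arc between `a` and `b` -/
def oarc (f : ℤ → V) (a b : ℤ) : Set V := {v | ∃ u, a < u ∧ u < b ∧ f u = v}

theorem oarc_not_adj {a b : ℤ} (hab : Gap G f p q a b) :
    ∀ v ∈ oarc f a b, ¬ G.Adj v p ∧ ¬ G.Adj v q := by
  rintro _ ⟨u, h1, h2, rfl⟩
  exact ⟨fun h => hab.2.2.2 u h1 h2 (Or.inl h.symm), fun h => hab.2.2.2 u h1 h2 (Or.inr h.symm)⟩

theorem Gap.unique {e g e1 g1 k : ℤ} (h : Gap G f p q e g) (h1 : Gap G f p q e1 g1)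
    (hk1 : e < k) (hk2 : k < g) (hk3 : e1 < k) (hk4 : k < g1) : e = e1 ∧ g = g1 := by
  constructor
  · rcases lt_trichotomy e e1 with h2 | h2 | h2
    · exact absurd h1.2.1 (h.2.2.2 _ h2 (by omega))
    · exact h2
    · exact absurd h.2.1 (h1.2.2.2 _ h2 (by omega))
  · rcases lt_trichotomy g g1 with h2 | h2 | h2
    · exact absurd h.2.2.1 (h1.2.2.2 _ (by omega) h2)
    · exact h2
    · exact absurd h1.2.2.1 (h.2.2.2 _ (by omega) h2)

/-- (A1) -/
theorem A1 [Fintype V] (hy : Hyp G s) (c : Cfg G f N p q) {a b e' e z u : ℤ}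
    (hab : Gap G f p q a b) (ha : G.Adj q (f a)) (hb : G.Adj p (f b))
    (hee : Gap G f p q e' e) (he' : G.Adj q (f e')) (he : G.Adj p (f e)) (hbe : b < e')
    (hz1 : e < z) (hz2 : z < a + N)
    (hmin : ∀ k, e < k → k < z → ∀ u, a < u → u < b → ¬ QC G f p q (f u) (f k))
    (hu1 : a < u) (hu2 : u < b) (hQ : QC G f p q (f u) (f z)) : s (f z) ≠ s (f b) := by
  have hee' := hee.1
  have habl := hab.1
  have e1 : Pth G (f z) (f z :: ((arc f e (z - 1)).reverse ++ [p])) p := by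
    have h1 := ((arc_pth c.adj e (z - 1) (by omega)).reverse.concat he.symm)
    refine h1.cons ?_
    have := (c.adj (z - 1)).symm
    rwa [show z - 1 + 1 = z by ring] at this
  have e2 : Pth G (f b) (arc f b e' ++ (q :: (arc f (z + 1) (a + N)).reverse)) (f (z + 1)) := by
    have h1 := (arc_pth c.adj (z + 1) (a + N) (by omega)).reverse
    rw [c.per] at h1
    exact (arc_pth c.adj b e' (by omega)).append (h1.cons ha) he'.symm
  have hnd : (f z :: ((arc f e (z - 1)).reverse ++ [p]) ++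
      (arc f b e' ++ (q :: (arc f (z + 1) (a + N)).reverse))).Nodup := by
    simp only [List.nodup_append, List.nodup_cons, List.mem_append, List.mem_cons,
      List.mem_reverse, List.nodup_reverse, List.not_mem_nil, or_false, mem_arc]
    refine ⟨⟨?_, c.arcn _ _ (by omega), ⟨not_false, List.nodup_nil⟩, ?_⟩,
      ⟨c.arcn _ _ (by omega), ⟨?_, c.arcn _ _ (by omega)⟩, ?_⟩, ?_⟩
    · rintro (⟨k, h1, h2, h3⟩ | h)
      · have := c.inj h3 (by omega) (by omega)
        omega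
      · exact c.pf z h
    · rintro x ⟨k, -, -, rfl⟩ y rfl h
      exact c.pf k h
    · rintro ⟨k, -, -, h⟩
      exact c.qf k h
    · rintro x ⟨k, h1, h2, rfl⟩ y (rfl | ⟨l, h3, h4, rfl⟩) h
      · exact c.qf k h
      · have := c.inj h (by omega) (by omega)
        omega
    · rintro x (rfl | ⟨k, h1, h2, rfl⟩ | rfl) y (⟨l, h3, h4, rfl⟩ | rfl | ⟨l, h3, h4, rfl⟩) h
      · have := c.inj h (by omega) (by omega)
        omega
      · exact c.qf _ h
      · have := c.inj h (by omega) (by omega)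
        omega
      · have := c.inj h (by omega) (by omega)
        omega
      · exact c.qf _ h
      · have := c.inj h (by omega) (by omega)
        omega
      · exact c.pf _ h.symm
      · exact c.pq.ne h
      · exact c.pf _ h.symm
  set Z : List V := f z :: ((arc f e (z - 1)).reverse ++ [p]) ++
      (arc f b e' ++ (q :: (arc f (z + 1) (a + N)).reverse)) with hZ
  have hmem : ∀ v, v ∈ Z ↔ v = p ∨ v = q ∨ ∃ k, ((b ≤ k ∧ k ≤ e') ∨ (e ≤ k ∧ k ≤ a + N)) ∧
      f k = v := by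
    intro v
    rw [hZ]
    simp only [List.mem_append, List.mem_cons, List.mem_reverse, List.not_mem_nil, or_false,
      mem_arc]
    constructor
    · rintro ((rfl | ⟨k, h1, h2, rfl⟩ | rfl) | (⟨l, h3, h4, rfl⟩ | rfl | ⟨l, h3, h4, rfl⟩))
      · exact Or.inr (Or.inr ⟨z, Or.inr ⟨by omega, by omega⟩, rfl⟩)
      · exact Or.inr (Or.inr ⟨k, Or.inr ⟨by omega, by omega⟩, rfl⟩)
      · exact Or.inl rfl
      · exact Or.inr (Or.inr ⟨l, Or.inl ⟨by omega, by omega⟩, rfl⟩)
      · exact Or.inr (Or.inl rfl)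
      · exact Or.inr (Or.inr ⟨l, Or.inr ⟨by omega, by omega⟩, rfl⟩)
    · rintro (rfl | rfl | ⟨k, (⟨h1, h2⟩ | ⟨h1, h2⟩), rfl⟩)
      · exact Or.inl (Or.inr (Or.inr rfl))
      · exact Or.inr (Or.inr (Or.inl rfl))
      · exact Or.inr (Or.inl ⟨k, h1, h2, rfl⟩)
      · rcases lt_trichotomy k z with h | h | h
        · exact Or.inl (Or.inr (Or.inl ⟨k, by omega, by omega, rfl⟩))
        · exact Or.inl (Or.inl (by rw [h]))
        · exact Or.inr (Or.inr (Or.inr ⟨k, by omega, by omega, rfl⟩))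
  have hU : ∀ k, a < k → k < b → f k ∉ Z := by
    intro k hk1 hk2 h
    rw [hmem] at h
    rcases h with h | h | ⟨l, hl, h⟩
    · exact c.pf k h
    · exact c.qf k h
    · have := c.inj h (by omega) (by omega)
      omega
  have hZS : ∀ v, v ∈ {v | v ∈ Z} → v ∈ SS f p q := by
    intro v hv
    rcases (hmem v).1 hv with rfl | rfl | ⟨k, -, rfl⟩
    · exact mem_SS_p
    · exact mem_SS_q
    · exact mem_SS_f k
  have hnoT : ∀ k, TT G f p q k → b < k → k < a + N → ∀ w, a < w → w < b →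
      ¬ QC G f p q (f w) (f k) := by
    intro k hk h1 h2 w hw1 hw2 hQ'
    rcases ER hy c hab ha hb hw1 hw2 (by omega) (by omega) hQ' with h | h |
      ⟨e1, g1, h3, h4, h5, -⟩
    · omega
    · omega
    · exact h3.2.2.2 k h4 h5 hk
  have hcomp : ∀ w, Rch G {v | v ∈ Z} (f u) w → Inv G f p q (oarc f a b) w := by
    intro w hw
    refine comp_inv c (u0 := f u) (A := oarc f a b) ⟨u, hu1, hu2, rfl⟩ ?_ (oarc_not_adj hab) hw
    rintro k hk ⟨_, ⟨w', hw1, hw2, rfl⟩, hQ'⟩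
    obtain ⟨j, hj1, hj2, hj3⟩ := c.window' k a
    rw [← hj3] at hk hQ' ⊢
    by_cases hjb : j < b
    · exact ⟨j, hj1, hjb, rfl⟩
    · exfalso
      have hj4 : e' < j ∧ j < e := by
        by_contra hcon
        apply hk
        change f j ∈ Z
        rw [hmem]
        exact Or.inr (Or.inr ⟨j, by omega, rfl⟩)
      rcases ER hy c hab ha hb hw1 hw2 (by omega) hj2 hQ' with h | h |
        ⟨e1, g1, h3, h4, h5, -, -, h6, -⟩
      · omega
      · omega
      · have := (hee.unique h3 hj4.1 hj4.2 h4 h5).1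
        rw [← this] at h6
        exact c.excl hy h6 he'
  refine BL (u := f u) (S := {v | v ∈ Z}) hy e1 e2 hb ?_ hnd (hU u hu1 hu2) (fun v => Iff.rfl)
    (att_of_QC hZS (Rch.refl _ _) (hU u hu1 hu2) hQ) ?_ ?_
  · exact (c.adj z).symm
  · refine ⟨f (b - 1), ?_, arc_reach c.adj hU hu1 hu2 (by omega) (by omega)⟩
    have := (c.adj (b - 1)).symm
    rwa [show b - 1 + 1 = b by ring] at this
  · intro v hv w hvw hw
    have hI := hcomp w hw
    rw [List.mem_append, List.mem_reverse, mem_arc, List.mem_singleton] at hv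
    rcases hv with ⟨k, hk1, hk2, rfl⟩ | rfl
    · obtain ⟨_, ⟨w', hw1, hw2, rfl⟩, hQ'⟩ := hI.att c hvw (by
        rintro ⟨l, hl1, hl2, hl3⟩
        have := c.inj hl3 (by omega) (by omega)
        omega)
      rcases eq_or_lt_of_le hk1 with h | h
      · rw [← h] at hQ'
        exact hnoT e (Or.inl he) (by omega) (by omega) w' hw1 hw2 hQ'
      · exact hmin k h (by omega) w' hw1 hw2 hQ'
    · exact hI.not_p c (fun a' ha' => (oarc_not_adj hab a' ha').1)
        (by rintro ⟨l, -, -, hl⟩; exact c.qf l hl) hvw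

end Pool.Agent.Work.MP_7d1d14_co
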