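import Pool.Agent.Work.MP_7d1d14_co.Step3

/-!
Step 4: attachments of different kinds which are not consecutive are adjacent.
-/

namespace Pool.Agent.Work.MP_7d1d14_co

universe u

variable {V : Type u} {G : SimpleGraph V} {s : V → ℤ} {f : ℤ → V} {N : ℤ} {p q : V}

theorem comp_inv' (c : Cfg G f N p q) {A Z : Set V} {u0 v : V} (h0 : u0 ∈ A)
    (hZ : ∀ k, f k ∉ Z → (∃ a ∈ A, QC G f p q a (f k)) → f k ∈ A)
    (hpq : ∀ w, w = p ∨ w = q → w ∈ A ∨ w ∈ Z) (h : Rch G Z u0 v) : Inv G f p q A v := by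
  refine Rch.induction (P := fun v => Inv G f p q A v) (Or.inl h0) ?_ h
  intro v w _ hv hvw _ hwZ
  rcases hv.step c hvw with h1 | ⟨k, hk, h1⟩ | ⟨-, h2⟩
  · exact h1
  · rw [← hk] at h1 hwZ ⊢
    exact Or.inl (hZ k hwZ h1)
  · exact Or.inl ((hpq w h2).resolve_right hwZ)

theorem Cfg.mem_cyc (c : Cfg G f N p q) (a : ℤ) (v : V) :
    v ∈ arc f a (a + N - 1) ↔ ∃ k, f k = v := by
  rw [mem_arc]
  constructor
  · rintro ⟨k, -, -, hk⟩
    exact ⟨k, hk⟩
  · rintro ⟨k, rfl⟩
    obtain ⟨j, h1, h2, h3⟩ := c.window k a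
    exact ⟨j, h1, by omega, h3⟩

theorem Cfg.isCyc (c : Cfg G f N p q) (a : ℤ) : IsCyc G (arc f a (a + N - 1)) := by
  have hN := c.N4
  refine ⟨c.arcn _ _ (by omega), ?_, _, _, arc_pth c.adj a (a + N - 1) (by omega), ?_⟩
  · unfold arc
    rw [List.length_map, List.length_range]
    omega
  · have := c.adj (a + N - 1)
    rwa [show a + N - 1 + 1 = a + N by ring, c.per] at this

/-- no component outside with exactly two attachments -/
theorem out_two [Fintype V] (hy : Hyp G s) (c : Cfg G f N p q) {o : V} (ho : o ∉ SS f p q)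
    {i j : ℤ} (hij : f i ≠ f j) (hj : TT G f p q j) (hi : ∃ w, G.Adj (f i) w ∧ Rch G (SS f p q) o w)
    (hatt : ∀ k w, G.Adj (f k) w → Rch G (SS f p q) o w → f k = f i ∨ f k = f j) : False := by
  classical
  set K : Finset V := Finset.univ.filter (fun v => Rch G (SS f p q) o v) with hK
  have hmK : ∀ v, v ∈ K ↔ Rch G (SS f p q) o v := fun v => by simp [hK]
  have hKS : ∀ v ∈ K, v ∉ SS f p q := fun v hv => ((hmK v).1 hv).not_mem ho
  have hclosed : ∀ u ∈ K, ∀ v, G.Adj u v → v ∈ K ∨ v = f i ∨ v = f j := by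
    intro u hu v huv
    by_cases hv : v ∈ SS f p q
    · right
      rcases hv with ⟨k, rfl⟩ | rfl | rfl
      · exact hatt k u huv.symm ((hmK u).1 hu)
      · exfalso
        rcases c.np u huv.symm with h | ⟨k, hk⟩
        · exact hKS u hu (by rw [h]; exact mem_SS_q)
        · exact hKS u hu (by rw [← hk]; exact mem_SS_f k)
      · exfalso
        rcases c.nq u huv.symm with h | ⟨k, hk⟩
        · exact hKS u hu (by rw [h]; exact mem_SS_p)
        · exact hKS u hu (by rw [← hk]; exact mem_SS_f k)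
    · left
      rw [hmK] at hu ⊢
      exact hu.step huv (hu.not_mem ho) hv
  obtain ⟨w, hw1, hw2⟩ := hi
  have hfK : ∀ k, f k ∉ K := fun k hk => hKS _ hk (mem_SS_f k)
  have hsum := hy.bal _ (c.isCyc 0) K (fun u hu h => by
      rw [c.mem_cyc] at h
      obtain ⟨k, hk⟩ := h
      rw [← hk] at hu
      exact hfK k hu) (fun u hu v huv => by
      rcases hclosed u hu v huv with h | h | h
      · exact Or.inl h
      · right
        rw [c.mem_cyc]
        exact ⟨i, h.symm⟩
      · right
        rw [c.mem_cyc]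
        exact ⟨j, h.symm⟩)
  rcases hj with hj | hj
  · exact hy.br K (f i) (f j) w p (hfK i) (hfK j) hij ((hmK w).2 hw2)
      (fun h => hKS p h mem_SS_p) (fun h => c.pf i h.symm) hw1 hj.symm hclosed hsum
  · exact hy.br K (f i) (f j) w q (hfK i) (hfK j) hij ((hmK w).2 hw2)
      (fun h => hKS q h mem_SS_q) (fun h => c.qf i h.symm) hw1 hj.symm hclosed hsum

/-- connections of an attachment -/
theorem ERd [Fintype V] (hy : Hyp G s) (c : Cfg G f N p q) {a b c' k : ℤ}
    (hab : Gap G f p q a b) (hbc : Gap G f p q b c') (ha : G.Adj q (f a))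
    (hc : G.Adj q (f c')) (h1 : c' ≤ k) (h2 : k ≤ a + N) (hQ : QC G f p q (f b) (f k)) :
    G.Adj q (f k) := by
  have hTa : TT G f p q (a + N) := by
    rw [TT, c.per]
    exact hab.2.1
  have hlt1 := hab.1
  have hlt2 := hbc.1
  by_cases hk : TT G f p q k
  · rcases hk with hk | hk
    · exfalso
      have hka : k ≠ a + N := by
        rintro rfl
        rw [c.per] at hk
        exact c.excl hy hk ha
      obtain ⟨g, hg1, hg2, hg3, hg4⟩ := exists_next hy c k
      have hkg : Gap G f p q k g := ⟨hg1, Or.inl hk, hg3, hg4⟩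
      have hga : g ≤ a + N := by
        by_contra hlt
        exact hg4 (a + N) (by omega) (by omega) hTa
      rcases hkg.type hy c with h | h
      · exact EF hy c (i := b) (i' := c') (j := k) (j' := g) hlt2 h1 hg1 (by omega) hc h.2
          hbc.2.2.2 hg4 hQ
      · exact c.excl hy hk h.1
    · exact hk
  · exfalso
    obtain ⟨x, y, hxy, hx, hy'⟩ := exists_gap hy c k hk
    have hcx : c' ≤ x := by
      by_contra hlt
      rcases eq_or_lt_of_le h1 with h | h
      · rw [← h] at hk
        exact hk hbc.2.2.1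
      · exact hxy.2.2.2 c' (by omega) (by omega) hbc.2.2.1
    have hya : y ≤ a + N := by
      by_contra hlt
      rcases eq_or_lt_of_le h2 with h | h
      · rw [h] at hk
        exact hk hTa
      · exact hxy.2.2.2 (a + N) (by omega) (by omega) hTa
    rcases hxy.type hy c with h | h
    · exact EF hy c (i := b) (i' := c') (j := k) (j' := y) hlt2 h1 hy' (by omega) hc h.2
        hbc.2.2.2 (fun l h3 h4 => hxy.2.2.2 l (by omega) h4) hQ
    · exact EB hy c (i := k) (i' := x) (j := b) (j' := a) hx (by omega) hlt1 (by omega) h.1 ha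
        (fun l h3 h4 => hxy.2.2.2 l h3 (by omega)) hab.2.2.2 hQ.symm

/-- (A1), last vertex version -/
theorem A1last [Fintype V] (hy : Hyp G s) (c : Cfg G f N p q) {a b g h z u : ℤ}
    (hab : Gap G f p q a b) (ha : G.Adj q (f a)) (hb : G.Adj p (f b))
    (hgh : Gap G f p q g h) (hg : G.Adj q (f g)) (hh : G.Adj p (f h)) (hha : h < a + N)
    (hz1 : b < z) (hz2 : z < g)
    (hmin : ∀ k, z < k → k < g → ∀ u, a < u → u < b → ¬ QC G f p q (f u) (f k))
    (hu1 : a < u) (hu2 : u < b) (hQ : QC G f p q (f u) (f z)) : s (f z) ≠ s (f a) := by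
  have c2 := c.rev.swap
  have hper : ∀ k : ℤ, f (-(k + N)) = f (-k) := by
    intro k
    have := c.per (-(k + N))
    rw [show -(k + N) + N = -k by ring] at this
    exact this.symm
  have hzz : f (-(-z + N)) = f z := by
    rw [hper]
    simp
  have key := A1 (f := fun k => f (-k)) hy c2 (a := -b) (b := -a) (e' := -h + N) (e := -g + N)
    (z := -z + N) (u := -u) hab.rev.swap (by simpa using hb) (by simpa using ha)
    (hgh.rev.swap.shift c2) (by rw [hper]; simpa using hh) (by rw [hper]; simpa using hg)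
    (by omega) (by omega) (by omega) ?_ (by omega) (by omega) ?_
  · simp only [neg_neg] at key
    rw [hzz] at key
    exact key
  · intro k hk1 hk2 w hw1 hw2 hQ'
    refine hmin (-k + N) (by omega) (by omega) (-w) (by omega) (by omega) ?_
    have h1 : f (-k + N) = f (-k) := c.per _
    rw [h1]
    have h2 := hQ'.swap
    rw [QC, SS_rev] at h2
    exact h2
  · have h2 := hQ.rev.swap
    simp only [neg_neg]
    rw [hzz]
    exact h2

/-- (A2), connected -/
theorem A2q [Fintype V] (hy : Hyp G s) (c : Cfg G f N p q) {a b c' e g h : ℤ}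
    (hab : Gap G f p q a b) (hbc : Gap G f p q b c') (heg : Gap G f p q e g)
    (hgh : Gap G f p q g h) (ha : G.Adj q (f a)) (hb : G.Adj p (f b)) (hc : G.Adj q (f c'))
    (he : G.Adj p (f e)) (hg : G.Adj q (f g)) (hh : G.Adj p (f h)) (hce : c' < e)
    (hha : h < a + N) : QC G f p q (f b) (f g) := by
  classical
  by_contra hno
  have l1 := hab.1
  have l2 := hbc.1
  have l3 := heg.1
  have l4 := hgh.1
  -- attachments
  set Att : ℤ → Prop := fun k => G.Adj p (f k) ∨ ∃ u, a < u ∧ u < c' ∧ QC G f p q (f u) (f k)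
    with hAtt
  obtain ⟨z1, hz1e, hz1g, hz1, hz1m⟩ : ∃ z, e ≤ z ∧ z < g ∧ Att z ∧
      ∀ k, z < k → k < g → ¬ Att k := by
    have hex : ∃ n : ℕ, Att (g - 1 - n) := ⟨(g - 1 - e).toNat, Or.inl (by
      rw [show g - 1 - ((g - 1 - e).toNat : ℤ) = e by omega]
      exact he)⟩
    have hle : Nat.find hex ≤ (g - 1 - e).toNat := Nat.find_min' hex (Or.inl (by
      rw [show g - 1 - ((g - 1 - e).toNat : ℤ) = e by omega]
      exact he))
    refine ⟨g - 1 - Nat.find hex, by omega, by omega, Nat.find_spec hex, ?_⟩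
    intro k hk1 hk2 hk3
    refine Nat.find_min hex (m := (g - 1 - k).toNat) (by omega) ?_
    rwa [show g - 1 - ((g - 1 - k).toNat : ℤ) = k by omega]
  obtain ⟨z2, hz2g, hz2h, hz2, hz2m⟩ : ∃ z, g < z ∧ z ≤ h ∧ Att z ∧
      ∀ k, g < k → k < z → ¬ Att k := by
    have hex : ∃ n : ℕ, Att (g + 1 + n) := ⟨(h - (g + 1)).toNat, Or.inl (by
      rw [show g + 1 + ((h - (g + 1)).toNat : ℤ) = h by omega]
      exact hh)⟩
    have hle : Nat.find hex ≤ (h - (g + 1)).toNat := Nat.find_min' hex (Or.inl (by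
      rw [show g + 1 + ((h - (g + 1)).toNat : ℤ) = h by omega]
      exact hh))
    refine ⟨g + 1 + Nat.find hex, by omega, by omega, Nat.find_spec hex, ?_⟩
    intro k hk1 hk2 hk3
    refine Nat.find_min hex (m := (k - (g + 1)).toNat) (by omega) ?_
    rwa [show g + 1 + ((k - (g + 1)).toNat : ℤ) = k by omega]
  have hsb : s (f b) = - s p := hy.s_adj _ _ hb
  have hsa : s (f a) = - s q := hy.s_adj _ _ ha
  have hspq : s q = - s p := hy.s_adj _ _ c.pq
  have hpv := hy.s_val p
  -- colour of `z1`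
  have hs1 : s (f z1) = s (f b) := by
    rcases eq_or_lt_of_le hz1e with h1 | h1
    · rw [← h1, hsb]
      exact hy.s_adj _ _ he
    · have hnT : ¬ TT G f p q z1 := heg.2.2.2 z1 h1 hz1g
      rcases hz1 with h2 | ⟨u, hu1, hu2, hQ⟩
      · exact absurd (Or.inl h2) hnT
      · have hub : u < b := by
          by_contra hcon
          refine EF hy c (i := u) (i' := c') (j := z1) (j' := g) hu2 (by omega) hz1g (by omega)
            hc hg (fun k hk1 hk2 => hbc.2.2.2 k (by omega) hk2)
            (fun k hk1 hk2 => heg.2.2.2 k (by omega) hk2) hQ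
        have h3 := A1last hy c hab ha hb hgh hg hh hha (z := z1) (u := u) (by omega) hz1g
          (fun k hk1 hk2 w hw1 hw2 hQ' => hz1m k hk1 hk2 (Or.inr ⟨w, hw1, by omega, hQ'⟩))
          hu1 hub hQ
        have h4 := hy.s_val (f z1)
        omega
  -- colour of `z2`
  have hs2 : s (f z2) = s (f b) := by
    rcases eq_or_lt_of_le hz2h with h1 | h1
    · rw [h1, hsb]
      exact hy.s_adj _ _ hh
    · have hnT : ¬ TT G f p q z2 := hgh.2.2.2 z2 hz2g h1
      rcases hz2 with h2 | ⟨u, hu1, hu2, hQ⟩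
      · exact absurd (Or.inl h2) hnT
      · have hub : b < u := by
          by_contra hcon
          refine EB hy c (i := z2) (i' := g) (j := u) (j' := a) hz2g (by omega) hu1 (by omega)
            hg ha (fun k hk1 hk2 => hgh.2.2.2 k hk1 (by omega))
            (fun k hk1 hk2 => hab.2.2.2 k hk1 (by omega)) hQ.symm
        have h3 := A1 hy c.swap hbc.swap hb hc heg.swap he hg hce (z := z2) (u := u) hz2g
          (by omega) (fun k hk1 hk2 w hw1 hw2 hQ' => hz2m k hk1 hk2
            (Or.inr ⟨w, by omega, hw2, hQ'.swap⟩)) hub hu2 hQ.swap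
        have h4 := hy.s_val (f z2)
        have h5 : s (f c') = - s q := hy.s_adj _ _ hc
        omega
  -- the cycle
  have e1 : Pth G (f z1) (f z1 :: arc f (z1 + 1) (z2 - 1)) (f (z2 - 1)) := by
    rw [← arc_cons z1 (z2 - 1) (by omega)]
    exact arc_pth c.adj _ _ (by omega)
  have e2 : Pth G (f z2) (arc f z2 (a + N) ++ (q :: arc f c' (z1 - 1))) (f (z1 - 1)) := by
    have h1 := arc_pth c.adj z2 (a + N) (by omega)
    rw [c.per] at h1
    exact h1.append ((arc_pth c.adj c' (z1 - 1) (by omega)).cons hc) ha.symm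
  have hnd : (f z1 :: arc f (z1 + 1) (z2 - 1) ++
      (arc f z2 (a + N) ++ (q :: arc f c' (z1 - 1)))).Nodup := by
    rw [← arc_cons z1 (z2 - 1) (by omega)]
    simp only [List.nodup_append, List.nodup_cons, List.mem_append, List.mem_cons, mem_arc]
    refine ⟨c.arcn _ _ (by omega), ⟨c.arcn _ _ (by omega), ⟨?_, c.arcn _ _ (by omega)⟩, ?_⟩, ?_⟩
    · rintro ⟨k, -, -, h⟩
      exact c.qf k h
    · rintro x ⟨k, h1, h2, rfl⟩ y (rfl | ⟨l, h3, h4, rfl⟩) h
      · exact c.qf k h
      · have := c.inj h (by omega) (by omega)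
        omega
    · rintro x ⟨k, h1, h2, rfl⟩ y (⟨l, h3, h4, rfl⟩ | rfl | ⟨l, h3, h4, rfl⟩) h
      · have := c.inj h (by omega) (by omega)
        omega
      · exact c.qf _ h
      · have := c.inj h (by omega) (by omega)
        omega
  set Z : List V := f z1 :: arc f (z1 + 1) (z2 - 1) ++
      (arc f z2 (a + N) ++ (q :: arc f c' (z1 - 1))) with hZ
  have hmem : ∀ v, v ∈ Z ↔ v = q ∨ ∃ k, c' ≤ k ∧ k ≤ a + N ∧ f k = v := by
    intro v
    rw [hZ, ← arc_cons z1 (z2 - 1) (by omega)]
    simp only [List.mem_append, List.mem_cons, mem_arc]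
    constructor
    · rintro (⟨k, h1, h2, rfl⟩ | (⟨l, h3, h4, rfl⟩ | rfl | ⟨l, h3, h4, rfl⟩))
      · exact Or.inr ⟨k, by omega, by omega, rfl⟩
      · exact Or.inr ⟨l, by omega, by omega, rfl⟩
      · exact Or.inl rfl
      · exact Or.inr ⟨l, by omega, by omega, rfl⟩
    · rintro (rfl | ⟨k, h1, h2, rfl⟩)
      · exact Or.inr (Or.inr (Or.inl rfl))
      · by_cases h5 : k < z1
        · exact Or.inr (Or.inr (Or.inr ⟨k, h1, by omega, rfl⟩))
        · by_cases h6 : k < z2
          · exact Or.inl ⟨k, by omega, by omega, rfl⟩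
          · exact Or.inr (Or.inl ⟨k, by omega, h2, rfl⟩)
  have hpZ : p ∉ Z := by
    rw [hmem]
    rintro (h | ⟨k, -, -, h⟩)
    · exact c.pq.ne h
    · exact c.pf k h
  have hU : ∀ k, a < k → k < c' → f k ∉ Z := by
    intro k hk1 hk2 h
    rw [hmem] at h
    rcases h with h | ⟨l, hl1, hl2, h⟩
    · exact c.qf k h
    · have := c.inj h (by omega) (by omega)
      omega
  have hZS : ∀ v, v ∈ {v | v ∈ Z} → v ∈ SS f p q := by
    intro v hv
    rcases (hmem v).1 hv with rfl | ⟨k, -, -, rfl⟩
    · exact mem_SS_q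
    · exact mem_SS_f k
  have hreach : ∀ u, a < u → u < c' → Rch G {v | v ∈ Z} p (f u) := by
    intro u hu1 hu2
    exact ((Rch.refl _ _).step hb hpZ (hU b l1 l2)).trans
      (arc_reach c.adj hU l1 l2 hu1 hu2)
  have hattached : ∀ k, Att k → ∃ w, G.Adj (f k) w ∧ Rch G {v | v ∈ Z} p w := by
    rintro k (h1 | ⟨u, hu1, hu2, hQ⟩)
    · exact ⟨p, h1.symm, Rch.refl _ _⟩
    · exact att_of_QC hZS (hreach u hu1 hu2) (hU u hu1 hu2) hQ
  refine BL (u := p) (S := {v | v ∈ Z}) hy e1 e2 ?_ ?_ hnd hpZ (fun v => Iff.rfl)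
    (hattached z1 hz1) (hattached z2 hz2) ?_ (hs1.trans hs2.symm)
  · have := c.adj (z2 - 1)
    rwa [show z2 - 1 + 1 = z2 by ring] at this
  · have := c.adj (z1 - 1)
    rwa [show z1 - 1 + 1 = z1 by ring] at this
  · intro v hv w hvw hw
    rw [mem_arc] at hv
    obtain ⟨k, hk1, hk2, rfl⟩ := hv
    have hI : Inv G f p q (insert p (oarc f a c')) w := by
      refine comp_inv' c (u0 := p) (Set.mem_insert _ _) ?_ ?_ hw
      · rintro l hl -
        obtain ⟨j, hj1, hj2, hj3⟩ := c.window' l a
        rw [← hj3] at hl ⊢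
        by_cases hjc : j < c'
        · exact Or.inr ⟨j, hj1, hjc, rfl⟩
        · exfalso
          apply hl
          change f j ∈ Z
          rw [hmem]
          exact Or.inr ⟨j, by omega, hj2, rfl⟩
      · rintro w' (rfl | rfl)
        · exact Or.inl (Set.mem_insert _ _)
        · right
          change w' ∈ Z
          rw [hmem]
          exact Or.inl rfl
    obtain ⟨a', ha', hQ'⟩ := hI.att c hvw (by
      rintro (h1 | ⟨l, hl1, hl2, hl3⟩)
      · exact c.pf k h1
      · have := c.inj hl3 (by omega) (by omega)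
        omega)
    have hAk : Att k := by
      rcases ha' with rfl | ⟨u, hu1, hu2, rfl⟩
      · left
        rcases hQ' with h1 | ⟨o, o', h1, h2, -, -⟩
        · exact h1
        · exfalso
          rcases c.np o h2 with h3 | ⟨l, hl⟩
          · exact h1 (by rw [h3]; exact mem_SS_q)
          · exact h1 (by rw [← hl]; exact mem_SS_f l)
      · exact Or.inr ⟨u, hu1, hu2, hQ'⟩
    rcases lt_trichotomy k g with h1 | h1 | h1
    · exact hz1m k (by omega) h1 hAk
    · rw [h1] at hAk
      rcases hAk with h2 | ⟨u, hu1, hu2, hQ⟩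
      · exact c.excl hy h2 hg
      · rcases lt_trichotomy u b with h3 | h3 | h3
        · exact EF hy c.swap (i := u) (i' := b) (j := g) (j' := h) h3 (by omega) l4 (by omega) hb
            hh (fun l h4 h5 h6 => hab.2.2.2 l (by omega) h5 h6.swap)
            (fun l h4 h5 h6 => hgh.2.2.2 l h4 h5 h6.swap) hQ.swap
        · rw [h3] at hQ
          exact hno hQ
        · exact EB hy c.swap (i := g) (i' := e) (j := u) (j' := b) l3 (by omega) h3 (by omega) he
            hb (fun l h4 h5 h6 => heg.2.2.2 l h4 h5 h6.swap)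
            (fun l h4 h5 h6 => hbc.2.2.2 l h4 (by omega) h6.swap) hQ.symm.swap
    · exact hz2m k h1 (by omega) hAk

/-- (A2) -/
theorem A2 [Fintype V] (hy : Hyp G s) (c : Cfg G f N p q) {a b c' e g h : ℤ}
    (hab : Gap G f p q a b) (hbc : Gap G f p q b c') (heg : Gap G f p q e g)
    (hgh : Gap G f p q g h) (ha : G.Adj q (f a)) (hb : G.Adj p (f b)) (hc : G.Adj q (f c'))
    (he : G.Adj p (f e)) (hg : G.Adj q (f g)) (hh : G.Adj p (f h)) (hce : c' < e)
    (hha : h < a + N) : G.Adj (f b) (f g) := by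
  have l1 := hab.1
  have l2 := hbc.1
  have l3 := heg.1
  have l4 := hgh.1
  rcases A2q hy c hab hbc heg hgh ha hb hc he hg hh hce hha with h1 | ⟨o, o', h1, h2, h3, h4⟩
  · exact h1
  · exfalso
    have hne : f g ≠ f b := by
      intro h5
      have := c.inj h5 (by omega) (by omega)
      omega
    refine out_two hy c h1 hne (Or.inl hb) ⟨o', h4.symm, h3⟩ ?_
    intro k w hkw hw
    obtain ⟨j, hj1, hj2, hj3⟩ := c.window k b
    rw [← hj3] at hkw ⊢
    have hQb : QC G f p q (f b) (f j) := Or.inr ⟨o, w, h1, h2, hw, hkw.symm⟩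
    have hQg : QC G f p q (f g) (f j) := Or.inr ⟨o', w, h3.not_mem h1, h4.symm,
      h3.symm.trans hw, hkw.symm⟩
    by_cases hjb : j = b
    · exact Or.inr (by rw [hjb])
    by_cases hjg : j = g
    · exact Or.inl (by rw [hjg])
    exfalso
    by_cases r1 : j < c'
    · -- in `(b, c')`
      have h5 := ERd hy c.swap heg.swap hgh.swap he hh (k := j + N) (by omega) (by omega) (by
        rw [c.per]
        exact hQg.swap)
      rw [c.per] at h5
      exact hbc.2.2.2 j (by omega) r1 (Or.inl h5)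
    by_cases r2 : a + N < j
    · have h5 := ERd hy c.swap heg.swap hgh.swap he hh (k := j) (by omega) (by omega) hQg.swap
      refine hab.2.2.2 (j - N) (by omega) (by omega) (Or.inl ?_)
      have := c.per (j - N)
      rw [show j - N + N = j by ring] at this
      rw [← this]
      exact h5
    · have h5 : G.Adj q (f j) := ERd hy c hab hbc ha hc (by omega) (by omega) hQb
      by_cases r3 : e < j ∧ j < h
      · rcases lt_or_gt_of_ne hjg with r4 | r4
        · exact heg.2.2.2 j r3.1 r4 (Or.inr h5)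
        · exact hgh.2.2.2 j r4 r3.2 (Or.inr h5)
      · have hje : j ≠ e := by
          rintro rfl
          exact c.excl hy he h5
        have hjh : j ≠ h := by
          rintro rfl
          exact c.excl hy hh h5
        by_cases r4 : j < e
        · have h6 := ERd hy c.swap heg.swap hgh.swap he hh (k := j + N) (by omega) (by omega) (by
            rw [c.per]
            exact hQg.swap)
          rw [c.per] at h6
          exact c.excl hy h6 h5
        · have h6 := ERd hy c.swap heg.swap hgh.swap he hh (k := j) (by omega) (by omega) hQg.swap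
          exact c.excl hy h6 h5

end Pool.Agent.Work.MP_7d1d14_co
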