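import Pool.Agent.Work.MP_7d1d14_co.Step4

/-!
Steps 5 to 7: the arcs are empty and the graph is complete bipartite.
-/

namespace Pool.Agent.Work.MP_7d1d14_co

universe u

variable {V : Type u} {G : SimpleGraph V} {s : V → ℤ} {f : ℤ → V} {N : ℤ} {p q : V}

theorem gap_next (hy : Hyp G s) (c : Cfg G f N p q) {b : ℤ} (hb : TT G f p q b) :
    ∃ g, Gap G f p q b g := by
  obtain ⟨g, h1, -, h3, h4⟩ := exists_next hy c b
  exact ⟨g, h1, hb, h3, h4⟩

theorem gap_prev (hy : Hyp G s) (c : Cfg G f N p q) {b : ℤ} (hb : TT G f p q b) :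
    ∃ e, Gap G f p q e b := by
  obtain ⟨e, h1, -, h3, h4⟩ := exists_prev hy c b
  exact ⟨e, h1, h3, hb, h4⟩

theorem Gap.type_p [Fintype V] (hy : Hyp G s) (c : Cfg G f N p q) {e g : ℤ}
    (h : Gap G f p q e g) (he : G.Adj p (f e)) : G.Adj q (f g) := by
  rcases h.type hy c with h1 | h1
  · exact h1.2
  · exact (c.excl hy he h1.1).elim

theorem Gap.type_q [Fintype V] (hy : Hyp G s) (c : Cfg G f N p q) {e g : ℤ}
    (h : Gap G f p q e g) (he : G.Adj q (f e)) : G.Adj p (f g) := by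
  rcases h.type hy c with h1 | h1
  · exact (c.excl hy h1.1 he).elim
  · exact h1.2

theorem Gap.type_p' [Fintype V] (hy : Hyp G s) (c : Cfg G f N p q) {e g : ℤ}
    (h : Gap G f p q e g) (he : G.Adj p (f g)) : G.Adj q (f e) := by
  rcases h.type hy c with h1 | h1
  · exact (c.excl hy he h1.2).elim
  · exact h1.1

theorem Gap.type_q' [Fintype V] (hy : Hyp G s) (c : Cfg G f N p q) {e g : ℤ}
    (h : Gap G f p q e g) (he : G.Adj q (f g)) : G.Adj p (f e) := by
  rcases h.type hy c with h1 | h1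
  · exact h1.1
  · exact (c.excl hy h1.2 he).elim

/-- (A4) -/
theorem A4 [Fintype V] (hy : Hyp G s) (c : Cfg G f N p q) {e0 a b y x : ℤ}
    (hea : Gap G f p q e0 a) (hab : Gap G f p q a b) (he : G.Adj p (f e0)) (ha : G.Adj q (f a))
    (hb : G.Adj p (f b)) (hy1 : e0 < y) (hy2 : y < a) (hx1 : a < x) (hx2 : x < b)
    (hQ : QC G f p q (f y) (f x)) : False := by
  obtain ⟨c', hbc⟩ := gap_next hy c hab.2.2.1
  obtain ⟨h, hch⟩ := gap_next hy c hbc.2.2.1
  obtain ⟨c'', hhc⟩ := gap_next hy c hch.2.2.1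
  have l1 := hea.1
  have l2 := hab.1
  have l3 := hbc.1
  have l4 := hch.1
  have l5 := hhc.1
  have hc' : G.Adj q (f c') := hbc.type_p hy c hb
  have hh : G.Adj p (f h) := hch.type_q hy c hc'
  have hc'' : G.Adj q (f c'') := hhc.type_p hy c hh
  have heaN := hea.shift c
  have habN := hab.shift c
  have heN : G.Adj p (f (e0 + N)) := by rw [c.per]; exact he
  have haN : G.Adj q (f (a + N)) := by rw [c.per]; exact ha
  have hbN : G.Adj p (f (b + N)) := by rw [c.per]; exact hb
  -- a third attachment of `p`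
  have hhe : h < e0 + N := by
    obtain ⟨k, hk1, hk2, hk3, hk4, hk5⟩ := exists_Tp hy c (b + 1) (f e0) (f b)
    have h1 : k ≠ e0 + N := by
      rintro rfl
      exact hk4 (c.per _)
    have h2 : k ≠ b + N := by
      rintro rfl
      exact hk5 (c.per _)
    have h3 : k ≠ a + N := by
      rintro rfl
      exact c.excl hy hk3 haN
    have h4 : k ≠ c' := by
      rintro rfl
      exact c.excl hy hk3 hc'
    have h5 : ¬ (k < c') := fun h6 => hbc.2.2.2 k (by omega) h6 (Or.inl hk3)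
    have h6 : ¬ (c' < k ∧ k < h) := fun h7 => hch.2.2.2 k h7.1 h7.2 (Or.inl hk3)
    have h7 : ¬ (e0 + N < k ∧ k < a + N) := fun h8 => heaN.2.2.2 k h8.1 h8.2 (Or.inl hk3)
    have h8 : ¬ (a + N < k ∧ k < b + N) := fun h9 => habN.2.2.2 k h9.1 h9.2 (Or.inl hk3)
    omega
  have hce : c'' < e0 + N := by
    have h1 : c'' ≠ e0 + N := by
      intro h2
      rw [h2] at hc''
      exact c.excl hy heN hc''
    have h2 : ¬ (e0 + N < c'') := fun h3 => hhc.2.2.2 _ hhe h3 (Or.inl heN)
    omega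
  have hadj : G.Adj (f h) (f (a + N)) := A2 hy c hch hhc heaN habN hc' hh hc'' heN haN hbN hce
    (by omega)
  rw [c.per] at hadj
  obtain ⟨Q, hQn, hQS, hQP⟩ := hQ.list
  have e1 : Pth G q (q :: [p]) p := (Pth.single p).cons c.pq.symm
  have e2 : Pth G (f h) (arc f h (y + N) ++ (Q ++ arc f x c')) (f c') := by
    have h1 := arc_pth c.adj h (y + N) (by omega)
    rw [c.per] at h1
    exact hQP _ _ _ _ h1 (arc_pth c.adj x c' (by omega))
  have hnd : (q :: [p] ++ (arc f h (y + N) ++ (Q ++ arc f x c'))).Nodup := by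
    simp only [List.nodup_append, List.nodup_cons, List.mem_append, List.mem_cons,
      List.not_mem_nil, or_false, mem_arc]
    refine ⟨⟨c.pq.symm.ne, not_false, List.nodup_nil⟩,
      ⟨c.arcn _ _ (by omega), ⟨hQn, c.arcn _ _ (by omega), ?_⟩, ?_⟩, ?_⟩
    · rintro v hv w ⟨k, -, -, rfl⟩ rfl
      exact hQS _ hv (mem_SS_f k)
    · rintro v ⟨k, hk1, hk2, rfl⟩ w (hw | ⟨l, hl1, hl2, rfl⟩) h6
      · rw [← h6] at hw
        exact hQS _ hw (mem_SS_f k)
      · have := c.inj h6 (by omega) (by omega)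
        omega
    · rintro v (rfl | rfl) w (⟨k, -, -, rfl⟩ | hw | ⟨k, -, -, rfl⟩) h6
      · exact c.qf k h6.symm
      · rw [← h6] at hw
        exact hQS _ hw mem_SS_q
      · exact c.qf k h6.symm
      · exact c.pf k h6.symm
      · rw [← h6] at hw
        exact hQS _ hw mem_SS_p
      · exact c.pf k h6.symm
  set Z : List V := q :: [p] ++ (arc f h (y + N) ++ (Q ++ arc f x c')) with hZ
  have haZ : f a ∉ Z := by
    rw [hZ]
    simp only [List.mem_append, List.mem_cons, List.not_mem_nil, or_false, mem_arc]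
    rintro ((h6 | h6) | (⟨k, hk1, hk2, h6⟩ | h6 | ⟨k, hk1, hk2, h6⟩))
    · exact c.qf a h6
    · exact c.pf a h6
    · rw [← c.per a] at h6
      have := c.inj h6 (by omega) (by omega)
      omega
    · exact hQS _ h6 (mem_SS_f a)
    · have := c.inj h6 (by omega) (by omega)
      omega
  refine BL (u := f a) (S := {v | v ∈ Z}) hy e1 e2 hh hc'.symm hnd haZ (fun v => Iff.rfl)
    ⟨f a, ha, Rch.refl _ _⟩ ⟨f a, hadj, Rch.refl _ _⟩ ?_ ?_
  · intro v hv w hvw hw
    rw [List.mem_singleton] at hv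
    subst hv
    refine Rch.not_mem (S := {v | v ∈ Z}) haZ hw ?_
    change w ∈ Z
    rw [hZ]
    simp only [List.mem_append, List.mem_cons, List.not_mem_nil, or_false, mem_arc]
    rcases c.np w hvw with h6 | ⟨k, rfl⟩
    · exact Or.inl (Or.inl h6)
    · right
      obtain ⟨j, hj1, hj2, hj3⟩ := c.window' k a
      rw [← hj3] at hvw ⊢
      have r1 : ¬ (j < b) := fun h7 => hab.2.2.2 j hj1 h7 (Or.inl hvw)
      have r2 : ¬ (b < j ∧ j < c') := fun h7 => hbc.2.2.2 j h7.1 h7.2 (Or.inl hvw)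
      have r3 : ¬ (c' < j ∧ j < h) := fun h7 => hch.2.2.2 j h7.1 h7.2 (Or.inl hvw)
      have r4 : ¬ (e0 + N < j ∧ j < a + N) := fun h7 => heaN.2.2.2 j h7.1 h7.2 (Or.inl hvw)
      have r5 : j ≠ c' := by
        rintro rfl
        exact c.excl hy hvw hc'
      have r6 : j ≠ a + N := by
        rintro rfl
        exact c.excl hy hvw haN
      by_cases r7 : j ≤ c'
      · exact Or.inr (Or.inr ⟨j, by omega, r7, rfl⟩)
      · exact Or.inl ⟨j, by omega, by omega, rfl⟩
  · rw [hy.s_adj _ _ hh, ← hy.s_adj _ _ c.pq]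

/-- (A3) -/
theorem A3 [Fintype V] (hy : Hyp G s) (c : Cfg G f N p q) {a b e g z u : ℤ}
    (hab : Gap G f p q a b) (ha : G.Adj q (f a)) (hb : G.Adj p (f b))
    (heg : Gap G f p q e g) (he : G.Adj p (f e)) (hg : G.Adj q (f g)) (hbe : b < e)
    (hga : g < a + N) (hz1 : e < z) (hz2 : z < g) (hu1 : a < u) (hu2 : u < b)
    (hQ : QC G f p q (f u) (f z)) : False := by
  classical
  have haN : G.Adj q (f (a + N)) := by rw [c.per]; exact ha
  have hbN : G.Adj p (f (b + N)) := by rw [c.per]; exact hb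
  have habN := hab.shift c
  obtain ⟨e0, he0⟩ := gap_prev hy c (b := a + N) (Or.inr haN)
  obtain ⟨e', hee⟩ := gap_prev hy c (b := e) (Or.inl he)
  have hpe0 : G.Adj p (f e0) := he0.type_q' hy c haN
  have hqe' : G.Adj q (f e') := hee.type_p' hy c he
  have l1 := hab.1
  have l2 := heg.1
  have l3 := he0.1
  have l4 := hee.1
  have hge0 : g < e0 := by
    have h1 : g ≠ e0 := by
      rintro rfl
      exact c.excl hy hpe0 hg
    have h2 : ¬ (e0 < g) := fun h3 => he0.2.2.2 g h3 hga (Or.inr hg)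
    omega
  have hbe' : b < e' := by
    have h1 : b ≠ e' := by
      rintro rfl
      exact c.excl hy hb hqe'
    have h2 : ¬ (e' < b) := fun h3 => hee.2.2.2 b h3 hbe (Or.inl hb)
    omega
  -- the first connected vertex
  obtain ⟨z0, u0, hz01, hz02, hu01, hu02, hQ0, hmin⟩ : ∃ z0 u0, e < z0 ∧ z0 < g ∧ a < u0 ∧
      u0 < b ∧ QC G f p q (f u0) (f z0) ∧
      ∀ k, e < k → k < z0 → ∀ u, a < u → u < b → ¬ QC G f p q (f u) (f k) := by
    have hex : ∃ n : ℕ, ∃ u, a < u ∧ u < b ∧ QC G f p q (f u) (f (e + 1 + n)) :=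
      ⟨(z - (e + 1)).toNat, u, hu1, hu2, by
        rwa [show e + 1 + ((z - (e + 1)).toNat : ℤ) = z by omega]⟩
    have hle : Nat.find hex ≤ (z - (e + 1)).toNat := Nat.find_min' hex ⟨u, hu1, hu2, by
        rwa [show e + 1 + ((z - (e + 1)).toNat : ℤ) = z by omega]⟩
    obtain ⟨u0, h1, h2, h3⟩ := Nat.find_spec hex
    refine ⟨e + 1 + Nat.find hex, u0, by omega, by omega, h1, h2, h3, ?_⟩
    intro k hk1 hk2 w hw1 hw2 hQ'
    refine Nat.find_min hex (m := (k - (e + 1)).toNat) (by omega) ⟨w, hw1, hw2, ?_⟩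
    rwa [show e + 1 + ((k - (e + 1)).toNat : ℤ) = k by omega]
  have hcol := A1 hy c hab ha hb hee hqe' he hbe' hz01 (by omega) hmin hu01 hu02 hQ0
  have hadj : G.Adj (f e) (f (a + N)) := A2 hy c hee heg he0 habN hqe' he hg hpe0 haN hbN hge0
    (by omega)
  rw [c.per] at hadj
  have e1 : Pth G (f a) (f a :: arc f e (z0 - 1)) (f (z0 - 1)) :=
    (arc_pth c.adj e (z0 - 1) (by omega)).cons hadj.symm
  have e2 : Pth G (f z0) (arc f z0 e0 ++ ((p :: arc f b e') ++ [q])) q :=
    (arc_pth c.adj z0 e0 (by omega)).append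
      (((arc_pth c.adj b e' (by omega)).cons hb).concat hqe'.symm) hpe0.symm
  have hnd : (f a :: arc f e (z0 - 1) ++ (arc f z0 e0 ++ ((p :: arc f b e') ++ [q]))).Nodup := by
    simp only [List.nodup_append, List.nodup_cons, List.mem_append, List.mem_cons,
      List.not_mem_nil, or_false, mem_arc]
    refine ⟨⟨?_, c.arcn _ _ (by omega)⟩, ⟨c.arcn _ _ (by omega), ⟨⟨?_, c.arcn _ _ (by omega)⟩,
      ⟨not_false, List.nodup_nil⟩, ?_⟩, ?_⟩, ?_⟩
    · rintro ⟨k, h1, h2, h3⟩
      have := c.inj h3 (by omega) (by omega)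
      omega
    · rintro ⟨k, -, -, h3⟩
      exact c.pf k h3
    · rintro v (rfl | ⟨k, -, -, rfl⟩) w rfl h6
      · exact c.pq.ne h6
      · exact c.qf k h6
    · rintro v ⟨k, h1, h2, rfl⟩ w ((rfl | ⟨l, h3, h4, rfl⟩) | rfl) h6
      · exact c.pf k h6
      · have := c.inj h6 (by omega) (by omega)
        omega
      · exact c.qf k h6
    · rintro v (rfl | ⟨k, h1, h2, rfl⟩) w (⟨l, h3, h4, rfl⟩ | (rfl | ⟨l, h3, h4, rfl⟩) | rfl) h6
      · have := c.inj h6 (by omega) (by omega)
        omega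
      · exact c.pf _ h6
      · have := c.inj h6 (by omega) (by omega)
        omega
      · exact c.qf _ h6
      · have := c.inj h6 (by omega) (by omega)
        omega
      · exact c.pf _ h6
      · have := c.inj h6 (by omega) (by omega)
        omega
      · exact c.qf _ h6
  set Z : List V := f a :: arc f e (z0 - 1) ++ (arc f z0 e0 ++ ((p :: arc f b e') ++ [q])) with hZ
  have hmem : ∀ v, v ∈ Z ↔ v = p ∨ v = q ∨ v = f a ∨ ∃ k, ((b ≤ k ∧ k ≤ e') ∨ (e ≤ k ∧ k ≤ e0)) ∧
      f k = v := by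
    intro v
    rw [hZ]
    simp only [List.mem_append, List.mem_cons, List.not_mem_nil, or_false, mem_arc]
    constructor
    · rintro ((rfl | ⟨k, h1, h2, rfl⟩) | (⟨l, h3, h4, rfl⟩ | (rfl | ⟨l, h3, h4, rfl⟩) | rfl))
      · exact Or.inr (Or.inr (Or.inl rfl))
      · exact Or.inr (Or.inr (Or.inr ⟨k, Or.inr ⟨by omega, by omega⟩, rfl⟩))
      · exact Or.inr (Or.inr (Or.inr ⟨l, Or.inr ⟨by omega, by omega⟩, rfl⟩))
      · exact Or.inl rfl
      · exact Or.inr (Or.inr (Or.inr ⟨l, Or.inl ⟨by omega, by omega⟩, rfl⟩))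
      · exact Or.inr (Or.inl rfl)
    · rintro (rfl | rfl | rfl | ⟨k, (⟨h1, h2⟩ | ⟨h1, h2⟩), rfl⟩)
      · exact Or.inr (Or.inr (Or.inl (Or.inl rfl)))
      · exact Or.inr (Or.inr (Or.inr rfl))
      · exact Or.inl (Or.inl rfl)
      · exact Or.inr (Or.inr (Or.inl (Or.inr ⟨k, h1, h2, rfl⟩)))
      · by_cases h : k < z0
        · exact Or.inl (Or.inr ⟨k, by omega, by omega, rfl⟩)
        · exact Or.inr (Or.inl ⟨k, by omega, by omega, rfl⟩)
  have hU : ∀ k, a < k → k < b → f k ∉ Z := by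
    intro k hk1 hk2 h
    rw [hmem] at h
    rcases h with h | h | h | ⟨l, hl, h⟩
    · exact c.pf k h
    · exact c.qf k h
    · have := c.inj h (by omega) (by omega)
      omega
    · have := c.inj h (by omega) (by omega)
      omega
  have hZS : ∀ v, v ∈ {v | v ∈ Z} → v ∈ SS f p q := by
    intro v hv
    rcases (hmem v).1 hv with rfl | rfl | rfl | ⟨k, -, rfl⟩
    · exact mem_SS_p
    · exact mem_SS_q
    · exact mem_SS_f a
    · exact mem_SS_f k
  have hcomp : ∀ w, Rch G {v | v ∈ Z} (f u0) w → Inv G f p q (oarc f a b) w := by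
    intro w hw
    refine comp_inv c (u0 := f u0) (A := oarc f a b) ⟨u0, hu01, hu02, rfl⟩ ?_
      (oarc_not_adj hab) hw
    rintro k hk ⟨_, ⟨w', hw1, hw2, rfl⟩, hQ'⟩
    obtain ⟨j, hj1, hj2, hj3⟩ := c.window' k a
    rw [← hj3] at hk hQ' ⊢
    by_cases hjb : j < b
    · exact ⟨j, hj1, hjb, rfl⟩
    · exfalso
      have hja : j ≠ a + N := by
        rintro rfl
        apply hk
        change f (a + N) ∈ Z
        rw [hmem, c.per]
        exact Or.inr (Or.inr (Or.inl rfl))
      have hj4 : (e' < j ∧ j < e) ∨ (e0 < j ∧ j < a + N) := by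
        by_contra hcon
        apply hk
        change f j ∈ Z
        rw [hmem]
        exact Or.inr (Or.inr (Or.inr ⟨j, by omega, rfl⟩))
      rcases hj4 with hj4 | hj4
      · rcases ER hy c hab ha hb hw1 hw2 (by omega) hj2 hQ' with h | h |
          ⟨e1, g1, h3, h4, h5, -, -, h6, -⟩
        · omega
        · omega
        · have := (hee.unique h3 hj4.1 hj4.2 h4 h5).1
          rw [← this] at h6
          exact c.excl hy h6 hqe'
      · refine A4 hy c he0 habN hpe0 haN hbN hj4.1 hj4.2 (x := w' + N) (by omega) (by omega) ?_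
        rw [c.per]
        exact hQ'.symm
  have hfin := BL (u := f u0) (S := {v | v ∈ Z}) hy e1 e2 (by
      have := c.adj (z0 - 1)
      rwa [show z0 - 1 + 1 = z0 by ring] at this) ha hnd (hU u0 hu01 hu02) (fun v => Iff.rfl)
    ⟨f (a + 1), c.adj a, arc_reach c.adj hU hu01 hu02 (by omega) (by omega)⟩
    (att_of_QC hZS (Rch.refl _ _) (hU u0 hu01 hu02) hQ0) (by
      intro v hv w hvw hw
      have hI := hcomp w hw
      rw [mem_arc] at hv
      obtain ⟨k, hk1, hk2, rfl⟩ := hv
      obtain ⟨_, ⟨w', hw1, hw2, rfl⟩, hQ'⟩ := hI.att c hvw (by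
        rintro ⟨l, hl1, hl2, hl3⟩
        have := c.inj hl3 (by omega) (by omega)
        omega)
      rcases eq_or_lt_of_le hk1 with h | h
      · rw [← h] at hQ'
        rcases ER hy c hab ha hb hw1 hw2 (by omega) (by omega) hQ' with h | h |
          ⟨e1, g1, h3, h4, h5, -⟩
        · omega
        · omega
        · exact h3.2.2.2 e h4 h5 (Or.inl he)
      · exact hmin k h (by omega) w' hw1 hw2 hQ')
  have h1 := hy.s_adj _ _ ha
  have h2 := hy.s_adj _ _ hb
  have h3 := hy.s_adj _ _ c.pq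
  have h4 := hy.s_val (f z0)
  have h5 := hy.s_val p
  omega

/-- an arc of type U is empty -/
theorem arc_empty [Fintype V] (hy : Hyp G s) (c : Cfg G f N p q) {a b : ℤ}
    (hab : Gap G f p q a b) (ha : G.Adj q (f a)) (hb : G.Adj p (f b)) : b = a + 1 := by
  classical
  by_contra hne
  have l1 := hab.1
  have l2 : a + 1 < b := by omega
  have lt := hab.lt hy c
  have haN : G.Adj q (f (a + N)) := by rw [c.per]; exact ha
  have hbN : G.Adj p (f (b + N)) := by rw [c.per]; exact hb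
  have habN := hab.shift c
  have hconn : ∀ u k, a < u → u < b → b ≤ k → k ≤ a + N → QC G f p q (f u) (f k) →
      k = b ∨ k = a + N := by
    intro u k hu1 hu2 hk1 hk2 hQ
    rcases ER hy c hab ha hb hu1 hu2 hk1 hk2 hQ with h | h | ⟨e, g, h3, h4, h5, h6, h7, h8, h9⟩
    · exact Or.inl h
    · exact Or.inr h
    · exfalso
      rcases eq_or_lt_of_le h6 with r | r
      · rw [← r] at h3 h4
        exact A4 hy c.swap hab.swap h3.swap ha hb h9 hu1 hu2 h4 h5 hQ.swap
      · rcases eq_or_lt_of_le h7 with r2 | r2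
        · rw [r2] at h3 h5 h9
          refine A4 hy c h3 habN h8 haN hbN h4 h5 (x := u + N) (by omega) (by omega) ?_
          rw [c.per]
          exact hQ.symm
        · exact A3 hy c hab ha hb h3 h8 h9 r r2 h4 h5 hu1 hu2 hQ
  -- the cycle avoiding the arc
  have e1 : Pth G (f b) (arc f b (a + N) ++ (q :: [p])) p := by
    have h1 := arc_pth c.adj b (a + N) (by omega)
    rw [c.per] at h1
    exact h1.append ((Pth.single p).cons c.pq.symm) ha.symm
  have hmem : ∀ v, v ∈ arc f b (a + N) ++ (q :: [p]) ↔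
      v = p ∨ v = q ∨ ∃ k, b ≤ k ∧ k ≤ a + N ∧ f k = v := by
    intro v
    simp only [List.mem_append, List.mem_cons, List.not_mem_nil, or_false, mem_arc]
    constructor
    · rintro (h | h | h)
      · exact Or.inr (Or.inr h)
      · exact Or.inr (Or.inl h)
      · exact Or.inl h
    · rintro (h | h | h)
      · exact Or.inr (Or.inr h)
      · exact Or.inr (Or.inl h)
      · exact Or.inl h
  have hcyc : IsCyc G (arc f b (a + N) ++ (q :: [p])) := by
    refine ⟨?_, ?_, _, _, e1, hb⟩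
    · simp only [List.nodup_append, List.nodup_cons, List.mem_cons,
        List.not_mem_nil, or_false, mem_arc]
      refine ⟨c.arcn _ _ (by omega), ⟨c.pq.symm.ne, not_false, List.nodup_nil⟩, ?_⟩
      rintro v ⟨k, -, -, rfl⟩ w (rfl | rfl) h
      · exact c.qf k h
      · exact c.pf k h
    · have := (arc_pth c.adj b (a + N) (by omega)).length_pos
      simp only [List.length_append, List.length_cons, List.length_nil]
      omega
  set Z : List V := arc f b (a + N) ++ (q :: [p]) with hZ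
  have hU : ∀ k, a < k → k < b → f k ∉ Z := by
    intro k hk1 hk2 h
    rw [hmem] at h
    rcases h with h | h | ⟨l, hl1, hl2, h⟩
    · exact c.pf k h
    · exact c.qf k h
    · have := c.inj h (by omega) (by omega)
      omega
  have hcomp : ∀ w, Rch G {v | v ∈ Z} (f (a + 1)) w → Inv G f p q (oarc f a b) w := by
    intro w hw
    refine comp_inv c (u0 := f (a + 1)) (A := oarc f a b) ⟨a + 1, by omega, l2, rfl⟩ ?_
      (oarc_not_adj hab) hw
    rintro k hk -
    obtain ⟨j, hj1, hj2, hj3⟩ := c.window' k a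
    rw [← hj3] at hk ⊢
    by_cases hjb : j < b
    · exact ⟨j, hj1, hjb, rfl⟩
    · exfalso
      apply hk
      change f j ∈ Z
      rw [hmem]
      exact Or.inr (Or.inr ⟨j, by omega, hj2, rfl⟩)
  set K : Finset V := Finset.univ.filter (fun v => Rch G {v | v ∈ Z} (f (a + 1)) v) with hK
  have hmK : ∀ v, v ∈ K ↔ Rch G {v | v ∈ Z} (f (a + 1)) v := fun v => by simp [hK]
  have hKZ : ∀ v ∈ K, v ∉ Z := fun v hv =>
    Rch.not_mem (S := {v | v ∈ Z}) (hU (a + 1) (by omega) l2) ((hmK v).1 hv)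
  have hclosed : ∀ u ∈ K, ∀ v, G.Adj u v → v ∈ K ∨ v = f a ∨ v = f b := by
    intro u hu v huv
    by_cases hv : v ∈ Z
    · right
      have hI := hcomp u ((hmK u).1 hu)
      rw [hmem] at hv
      rcases hv with rfl | rfl | ⟨k, hk1, hk2, rfl⟩
      · exfalso
        exact hI.not_p c (fun a' ha' => (oarc_not_adj hab a' ha').1)
          (by rintro ⟨l, -, -, hl⟩; exact c.qf l hl) huv.symm
      · exfalso
        exact hI.not_q c (fun a' ha' => (oarc_not_adj hab a' ha').2)
          (by rintro ⟨l, -, -, hl⟩; exact c.pf l hl) huv.symm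
      · obtain ⟨_, ⟨w', hw1, hw2, rfl⟩, hQ'⟩ := hI.att c huv.symm (by
          rintro ⟨l, hl1, hl2, hl3⟩
          have := c.inj hl3 (by omega) (by omega)
          omega)
        rcases hconn w' k hw1 hw2 hk1 hk2 hQ' with h | h
        · right
          rw [h]
        · left
          rw [h, c.per]
    · left
      rw [hmK] at hu ⊢
      exact hu.step huv (hKZ u ((hmK u).2 hu)) hv
  have hfaZ : f a ∈ Z := by
    rw [hmem]
    exact Or.inr (Or.inr ⟨a + N, by omega, le_rfl, c.per a⟩)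
  have hfbZ : f b ∈ Z := by
    rw [hmem]
    exact Or.inr (Or.inr ⟨b, le_rfl, by omega, rfl⟩)
  have hpZ : p ∈ Z := by
    rw [hmem]
    exact Or.inl rfl
  have hsum := hy.bal Z hcyc K hKZ (fun u hu v huv => by
    rcases hclosed u hu v huv with h | h | h
    · exact Or.inl h
    · rw [h]
      exact Or.inr hfaZ
    · rw [h]
      exact Or.inr hfbZ)
  have hab' : f a ≠ f b := by
    intro h
    have := c.inj h (by omega) (by omega)
    omega
  exact hy.br K (f a) (f b) (f (a + 1)) p (fun h => hKZ _ h hfaZ) (fun h => hKZ _ h hfbZ) hab'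
    ((hmK _).2 (Rch.refl _ _)) (fun h => hKZ _ h hpZ) (fun h => c.pf a h.symm) (c.adj a) hb.symm
    hclosed hsum

end Pool.Agent.Work.MP_7d1d14_co
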